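import Mathlib

/-! # The space of independent geometric levels -/

namespace X97.RH

open MeasureTheory Set
open scoped ENNReal

/-- The geometric distribution: `n` has mass `2^-(n+1)`. -/
noncomputable def lam : Measure ℕ := Measure.sum fun n => ((2 : ℝ≥0∞)⁻¹ ^ (n + 1)) • Measure.dirac n

theorem lam_apply (T : Set ℕ) : lam T = ∑' n, (2 : ℝ≥0∞)⁻¹ ^ (n + 1) * T.indicator 1 n := by
  unfold lam
  rw [Measure.sum_apply _ (Set.to_countable T).measurableSet]
  simp

theorem lam_univ : lam univ = 1 := by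
  rw [lam_apply]
  simp only [indicator_univ, Pi.one_apply, mul_one]
  rw [ENNReal.tsum_geometric_add_one, ENNReal.one_sub_inv_two, inv_inv]
  exact ENNReal.inv_mul_cancel (by simp) (by simp)

instance : IsProbabilityMeasure lam := ⟨lam_univ⟩

theorem lam_singleton (n : ℕ) : lam {n} = (2 : ℝ≥0∞)⁻¹ ^ (n + 1) := by
  rw [lam_apply, tsum_eq_single n]
  · simp
  · intro m hm
    simp [hm]

theorem lam_Ici (L : ℕ) : lam (Ici L) = (2 : ℝ≥0∞)⁻¹ ^ L := by
  induction L with
  | zero =>
    have : (Ici 0 : Set ℕ) = univ := by ext; simp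
    rw [this, lam_univ, pow_zero]
  | succ L ih =>
    have h1 : (Ici L : Set ℕ) = {L} ∪ Ici (L + 1) := by
      ext n; simp only [mem_Ici, singleton_union, mem_insert_iff]; omega
    have h2 : Disjoint ({L} : Set ℕ) (Ici (L + 1)) := by
      rw [disjoint_singleton_left]; simp
    rw [h1, measure_union h2 measurableSet_Ici, lam_singleton] at ih
    have h3 : (2 : ℝ≥0∞)⁻¹ ^ L = (2 : ℝ≥0∞)⁻¹ ^ (L + 1) + (2 : ℝ≥0∞)⁻¹ ^ (L + 1) := by
      rw [pow_succ, ← mul_add, ENNReal.inv_two_add_inv_two, mul_one]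
    rw [h3] at ih
    exact (ENNReal.add_right_inj (by simp)).1 ih

theorem lam_Ici_ne_zero (L : ℕ) : lam (Ici L) ≠ 0 := by
  rw [lam_Ici]; simp

/-- Independent levels. -/
noncomputable def mu : Measure (ℕ → ℕ) := Measure.infinitePi fun _ => lam

instance : IsProbabilityMeasure mu := by unfold mu; infer_instance

/-- `D` only depends on the first `m` coordinates. -/
def Det (m : ℕ) (D : Set (ℕ → ℕ)) : Prop :=
  ∀ X X' : ℕ → ℕ, (∀ j < m, X j = X' j) → X ∈ D → X' ∈ D

theorem Det.eq_preimage {m : ℕ} {D : Set (ℕ → ℕ)} (h : Det m D) :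
    D = (fun X (i : Finset.range m) => X i) ⁻¹' ((fun X (i : Finset.range m) => X i) '' D) := by
  ext X
  constructor
  · intro hX; exact ⟨X, hX, rfl⟩
  · rintro ⟨Y, hY, e⟩
    refine h Y X (fun j hj => ?_) hY
    exact congrFun e ⟨j, Finset.mem_range.2 hj⟩

theorem Det.measurableSet {m : ℕ} {D : Set (ℕ → ℕ)} (h : Det m D) : MeasurableSet D := by
  rw [h.eq_preimage]
  refine measurableSet_preimage ?_ (Set.to_countable _).measurableSet
  exact measurable_pi_lambda _ fun i => measurable_pi_apply _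

theorem indep {m : ℕ} {D : Set (ℕ → ℕ)} (h : Det m D) {w : ℕ} (hw : m ≤ w) (T : Set ℕ) :
    mu (D ∩ {X | X w ∈ T}) = mu D * lam T := by
  have h1 : ProbabilityTheory.iIndepFun (fun (i : ℕ) (X : ℕ → ℕ) => X i) mu :=
    ProbabilityTheory.iIndepFun_infinitePi (P := fun _ : ℕ => lam) (X := fun _ : ℕ => (id : ℕ → ℕ))
      (fun _ => measurable_id)
  have hd : Disjoint (Finset.range m) {w} := by
    rw [Finset.disjoint_singleton_right, Finset.mem_range]; omega
  have h2 := h1.indepFun_finset (Finset.range m) {w} hd (fun i => measurable_pi_apply i)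
  have h3 := h2.measure_inter_preimage_eq_mul
    ((fun X (i : Finset.range m) => X i) '' D) {t | t ⟨w, by simp⟩ ∈ T}
    (Set.to_countable _).measurableSet (Set.to_countable _).measurableSet
  rw [← h.eq_preimage] at h3
  have h4 : ((fun (a : ℕ → ℕ) (i : ({w} : Finset ℕ)) => a i) ⁻¹' {t | t ⟨w, by simp⟩ ∈ T}) =
      {X : ℕ → ℕ | X w ∈ T} := rfl
  rw [h4] at h3
  rw [h3]
  congr 1
  have h5 := (measurePreserving_eval_infinitePi (fun _ : ℕ => lam) w).measure_preimage
    (Set.to_countable T).measurableSet.nullMeasurableSet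
  exact h5

theorem cyl_det (x : ℕ → ℕ) (n : ℕ) : Det n (PiNat.cylinder x n) := by
  intro X X' h hX j hj
  rw [← h j hj]; exact hX j hj

/-- Density: a set that has relative measure at most `θ < 1` in every cylinder is null. -/
theorem null_of_density (S : Set (ℕ → ℕ)) (θ : ℝ≥0∞) (h0 : θ ≠ 0) (h1 : θ < 1)
    (h : ∀ x n, mu (PiNat.cylinder x n ∩ S) ≤ θ * mu (PiNat.cylinder x n)) : mu S = 0 := by
  have step : ∀ n (T : Set (Finset.range n → ℕ)),
      mu (((fun (X : ℕ → ℕ) (i : Finset.range n) => X i) ⁻¹' T) ∩ S) ≤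
        θ * mu ((fun (X : ℕ → ℕ) (i : Finset.range n) => X i) ⁻¹' T) := by
    intro n T
    set R : (ℕ → ℕ) → (Finset.range n → ℕ) := fun X i => X i with hR
    have hRm : Measurable R := measurable_pi_lambda _ fun i => measurable_pi_apply _
    have e : R ⁻¹' T = ⋃ t : T, R ⁻¹' {(t : Finset.range n → ℕ)} := by
      ext X; simp
    have hcyl : ∀ t : Finset.range n → ℕ, ∃ x, R ⁻¹' {t} = PiNat.cylinder x n := by
      intro t
      refine ⟨fun i => if hi : i < n then t ⟨i, Finset.mem_range.2 hi⟩ else 0, ?_⟩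
      ext X
      simp only [mem_preimage, mem_singleton_iff, PiNat.mem_cylinder_iff]
      constructor
      · rintro rfl i hi; simp [hi, hR]
      · intro hX
        funext i
        have := hX i (Finset.mem_range.1 i.2)
        simp only [Finset.mem_range.1 i.2, dif_pos] at this
        exact this
    calc mu (R ⁻¹' T ∩ S) = mu (⋃ t : T, R ⁻¹' {(t : Finset.range n → ℕ)} ∩ S) := by
          rw [e, iUnion_inter]
      _ ≤ ∑' t : T, mu (R ⁻¹' {(t : Finset.range n → ℕ)} ∩ S) := measure_iUnion_le _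
      _ ≤ ∑' t : T, θ * mu (R ⁻¹' {(t : Finset.range n → ℕ)}) := by
          refine ENNReal.tsum_le_tsum fun t => ?_
          obtain ⟨x, hx⟩ := hcyl t
          rw [hx]; exact h x n
      _ = θ * ∑' t : T, mu (R ⁻¹' {(t : Finset.range n → ℕ)}) := ENNReal.tsum_mul_left
      _ = θ * mu (R ⁻¹' T) := by
          rw [e, measure_iUnion]
          · intro t t' htt
            refine Disjoint.preimage _ ?_
            rw [disjoint_singleton]
            exact fun hh => htt (Subtype.ext hh)
          · intro t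
            exact hRm (Set.to_countable _).measurableSet
  have hopen : ∀ U : Set (ℕ → ℕ), IsOpen U → mu (U ∩ S) ≤ θ * mu U := by
    intro U hU
    set V : ℕ → Set (ℕ → ℕ) := fun n => {X | PiNat.cylinder X n ⊆ U} with hV
    have hmono : Monotone V := fun a b hab X hX => (PiNat.cylinder_anti X hab).trans hX
    have hUV : U = ⋃ n, V n := by
      ext X
      simp only [mem_iUnion]
      constructor
      · intro hX
        obtain ⟨W, ⟨x, n, rfl⟩, hXW, hWU⟩ :=
          (PiNat.isTopologicalBasis_cylinders (fun _ : ℕ => ℕ)).exists_subset_of_mem_open hX hU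
        refine ⟨n, ?_⟩
        simp only [hV, mem_ofPred_eq]
        rw [PiNat.mem_cylinder_iff_eq.1 hXW]
        exact hWU
      · rintro ⟨n, hn⟩
        exact hn (PiNat.self_mem_cylinder X n)
    have hVn : ∀ n, mu (V n ∩ S) ≤ θ * mu U := by
      intro n
      have hdet : Det n (V n) := by
        intro X X' hXX hX
        simp only [hV, mem_ofPred_eq] at hX ⊢
        rwa [PiNat.mem_cylinder_iff_eq.1 (PiNat.mem_cylinder_iff.2 (fun i hi => (hXX i hi).symm) :
          X' ∈ PiNat.cylinder X n)]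
      have h2 := step n ((fun (X : ℕ → ℕ) (i : Finset.range n) => X i) '' V n)
      rw [← hdet.eq_preimage] at h2
      refine h2.trans (mul_le_mul_right ?_ θ)
      exact measure_mono (by rw [hUV]; exact subset_iUnion _ _)
    have e1 : U ∩ S = ⋃ n, (V n ∩ S) := by rw [← iUnion_inter, ← hUV]
    have hmono2 : Monotone fun n => V n ∩ S := fun a b hab => inter_subset_inter_left _ (hmono hab)
    rw [e1, hmono2.measure_iUnion]
    exact iSup_le hVn
  by_contra hS
  have hlt : mu S < mu S / θ := by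
    rw [ENNReal.lt_div_iff_mul_lt (Or.inl h0) (Or.inl (h1.trans ENNReal.one_lt_top).ne)]
    calc mu S * θ < mu S * 1 := ENNReal.mul_lt_mul_right hS (measure_ne_top _ _) h1
      _ = mu S := mul_one _
  obtain ⟨U, hSU, hU, hlt2⟩ := S.exists_isOpen_lt_of_lt _ hlt
  have h3 := hopen U hU
  rw [inter_eq_self_of_subset_right hSU] at h3
  have h4 : θ * mu U < mu S := by
    rw [mul_comm]
    exact (ENNReal.lt_div_iff_mul_lt (Or.inl h0) (Or.inl (h1.trans ENNReal.one_lt_top).ne)).1 hlt2
  exact absurd (h3.trans_lt h4) (lt_irrefl _)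

end X97.RH
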