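import Pool.Agent.X97.RH.Defs

/-! # Closure properties of relative computability of total functions -/

namespace X97.RH

/-- `f` is computable from the oracles in `O`. -/
def RI (O : Set (ℕ →. ℕ)) (f : ℕ → ℕ) : Prop := Nat.RecursiveIn O (f : ℕ →. ℕ)

variable {O : Set (ℕ →. ℕ)} {f g h : ℕ → ℕ}

theorem RI.prim (hf : Nat.Primrec f) : RI O f := Nat.Primrec.recursiveIn hf

theorem RI.comp (hf : RI O f) (hg : RI O g) : RI O (fun n => f (g n)) := by
  have := Nat.RecursiveIn.comp hf hg
  refine Nat.RecursiveIn.of_eq this fun n => ?_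
  exact Part.bind_some _ _

theorem RI.pair (hf : RI O f) (hg : RI O g) : RI O (fun n => Nat.pair (f n) (g n)) := by
  have := Nat.RecursiveIn.pair hf hg
  refine Nat.RecursiveIn.of_eq this fun n => ?_
  simp [Seq.seq]

theorem RI.prec (hf : RI O f) (hg : RI O g) :
    RI O (fun p => Nat.rec (f p.unpair.1)
      (fun y i => g (Nat.pair p.unpair.1 (Nat.pair y i))) p.unpair.2) := by
  have := Nat.RecursiveIn.prec hf hg
  refine Nat.RecursiveIn.of_eq this fun p => ?_
  simp only [PFun.coe_val]
  generalize (Nat.unpair p).1 = x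
  generalize (Nat.unpair p).2 = n
  induction n with
  | zero => rfl
  | succ n ih =>
    exact (congrArg (fun z : Part ℕ => z.bind fun i => Part.some
      (g (Nat.pair x (Nat.pair n i)))) ih).trans (Part.bind_some _ _)

theorem RI.prim1 {k : ℕ → ℕ} (hk : Primrec k) : RI O k := RI.prim (Primrec.nat_iff.1 hk)

theorem RI.join (hf : RI O f) (hg : RI O g) : RI O (join f g) := by
  have h2 : RI O (fun n => n / 2) :=
    RI.prim1 (Primrec.nat_div.comp Primrec.id (Primrec.const 2))
  have hid : RI O (fun n => n) := RI.prim1 Primrec.id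
  have hsel : RI O (fun p : ℕ => if p.unpair.1 % 2 = 0 then p.unpair.2.unpair.1
      else p.unpair.2.unpair.2) := by
    apply RI.prim1
    have u1 : Primrec (fun p : ℕ => p.unpair.1) := Primrec.fst.comp Primrec.unpair
    have u2 : Primrec (fun p : ℕ => p.unpair.2) := Primrec.snd.comp Primrec.unpair
    refine Primrec.ite ?_ (u1.comp u2) (u2.comp u2)
    exact Primrec.eq.comp (Primrec.nat_mod.comp u1 (Primrec.const 2)) (Primrec.const 0)
  have := hsel.comp (hid.pair ((hf.comp h2).pair (hg.comp h2)))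
  refine Nat.RecursiveIn.of_eq this fun n => ?_
  simp [X97.RH.join]

theorem RI.even (h : RI O (X97.RH.join f g)) : RI O f := by
  have h2 : RI O (fun n => 2 * n) :=
    RI.prim1 (Primrec.nat_mul.comp (Primrec.const 2) Primrec.id)
  have := h.comp h2
  refine Nat.RecursiveIn.of_eq this fun n => ?_
  simp [X97.RH.join]

theorem RI.odd (h : RI O (X97.RH.join f g)) : RI O g := by
  have h2 : RI O (fun n => 2 * n + 1) :=
    RI.prim1 (Primrec.succ.comp (Primrec.nat_mul.comp (Primrec.const 2) Primrec.id))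
  have := h.comp h2
  refine Nat.RecursiveIn.of_eq this fun n => ?_
  have h4 : (2 * n + 1) / 2 = n := by omega
  simp [X97.RH.join, h4]

/-- Code of the first `n` values. -/
def hist (f : ℕ → ℕ) (n : ℕ) : ℕ := Nat.rec 0 (fun y i => Nat.pair i (f y)) n

@[simp] theorem hist_zero (f : ℕ → ℕ) : hist f 0 = 0 := rfl
@[simp] theorem hist_succ (f : ℕ → ℕ) (n : ℕ) : hist f (n + 1) = Nat.pair (hist f n) (f n) := rfl

theorem hist_inj {f g : ℕ → ℕ} {n : ℕ} (h : hist f n = hist g n) : ∀ j < n, f j = g j := by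
  induction n with
  | zero => intro j hj; omega
  | succ n ih =>
    simp only [hist_succ, Nat.pair_eq_pair] at h
    intro j hj
    rcases Nat.lt_succ_iff_lt_or_eq.1 hj with h1 | h1
    · exact ih h.1 j h1
    · rw [h1]; exact h.2

theorem RI.hist (hf : RI O f) : RI O (hist f) := by
  have hz : RI O (fun _ => 0) := RI.prim1 (Primrec.const 0)
  have u1 : RI O (fun p : ℕ => p.unpair.1) := RI.prim1 (Primrec.fst.comp Primrec.unpair)
  have u2 : RI O (fun p : ℕ => p.unpair.2) := RI.prim1 (Primrec.snd.comp Primrec.unpair)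
  have hid : RI O (fun n => n) := RI.prim1 Primrec.id
  have hs : RI O (fun p : ℕ => Nat.pair p.unpair.2.unpair.2 (f p.unpair.2.unpair.1)) :=
    (u2.comp u2).pair (hf.comp (u1.comp u2))
  have := (hz.prec hs).comp (hz.pair hid)
  refine Nat.RecursiveIn.of_eq this fun n => ?_
  simp [X97.RH.hist]

/-- Any functional with a modulus of continuity is computable from two fixed functions. -/
theorem associate (G : (ℕ → ℕ) → (ℕ → ℕ) → ℕ → ℕ) (md : ℕ → ℕ)
    (hG : ∀ f f' X X' n, (∀ j < md n, f j = f' j) → (∀ j < md n, X j = X' j) →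
      G f X n = G f' X' n) :
    ∃ r : ℕ → ℕ, ∀ (O : Set (ℕ →. ℕ)) (f X : ℕ → ℕ), RI O r → RI O md → RI O f → RI O X →
      RI O (G f X) := by
  classical
  refine ⟨fun p => if h : ∃ f X, hist f (md p.unpair.1) = p.unpair.2.unpair.1 ∧
      hist X (md p.unpair.1) = p.unpair.2.unpair.2 then
      G h.choose h.choose_spec.choose p.unpair.1 else 0, fun O f X hr hm hf hX => ?_⟩
  have hid : RI O (fun n => n) := RI.prim1 Primrec.id
  have := hr.comp (hid.pair ((hf.hist.comp hm).pair (hX.hist.comp hm)))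
  refine Nat.RecursiveIn.of_eq this fun n => ?_
  have h : ∃ f' X', hist f' (md n) = hist f (md n) ∧ hist X' (md n) = hist X (md n) :=
    ⟨f, X, rfl, rfl⟩
  simp only [Nat.unpair_pair, PFun.coe_val, dif_pos h]
  congr 1
  exact hG _ _ _ _ n (hist_inj h.choose_spec.choose_spec.1) (hist_inj h.choose_spec.choose_spec.2)

end X97.RH
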