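import Mathlib

/-! # Codes for oracle computations with countably many total oracles -/

namespace X97.RH

inductive Cd : Type
  | zero : Cd
  | succ : Cd
  | left : Cd
  | right : Cd
  | oracle (i : ℕ) : Cd
  | pair (a b : Cd) : Cd
  | comp (a b : Cd) : Cd
  | prec (a b : Cd) : Cd
  | rfind (a : Cd) : Cd
  deriving Countable

noncomputable def ev (g : ℕ → ℕ → ℕ) : Cd → ℕ → Part ℕ
  | .zero => fun _ => Part.some 0
  | .succ => fun n => Part.some (n + 1)
  | .left => fun n => Part.some (Nat.unpair n).1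
  | .right => fun n => Part.some (Nat.unpair n).2
  | .oracle i => fun n => Part.some (g i n)
  | .pair a b => fun n => (ev g a n).bind fun x => (ev g b n).bind fun y => Part.some (Nat.pair x y)
  | .comp a b => fun n => (ev g b n).bind (ev g a)
  | .prec a b => fun p =>
      Nat.rec (motive := fun _ => Part ℕ) (ev g a (Nat.unpair p).1) (fun y IH =>
        IH.bind fun i => ev g b (Nat.pair (Nat.unpair p).1 (Nat.pair y i))) (Nat.unpair p).2
  | .rfind a => fun x =>
      Nat.rfind fun n => (ev g a (Nat.pair x n)).map (fun m => decide (m = 0))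

theorem exists_code {g : ℕ → ℕ → ℕ} {f : ℕ →. ℕ}
    (h : Nat.RecursiveIn (Set.range fun i => (g i : ℕ →. ℕ)) f) : ∃ a, ∀ n, ev g a n = f n := by
  induction h with
  | zero => exact ⟨.zero, fun n => rfl⟩
  | succ => exact ⟨.succ, fun n => rfl⟩
  | left => exact ⟨.left, fun n => rfl⟩
  | right => exact ⟨.right, fun n => rfl⟩
  | oracle k hk =>
    obtain ⟨i, rfl⟩ := hk
    exact ⟨.oracle i, fun n => rfl⟩
  | pair _ _ iha ihb =>
    obtain ⟨a, ha⟩ := iha; obtain ⟨b, hb⟩ := ihb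
    refine ⟨.pair a b, fun n => ?_⟩
    simp only [ev, ha, hb, Seq.seq, Part.map_eq_map]
    apply Part.ext
    intro m
    simp only [Part.mem_bind_iff, Part.mem_map_iff, Part.mem_some_iff]
    constructor
    · rintro ⟨x, hx, y, hy, rfl⟩
      exact ⟨_, ⟨x, hx, rfl⟩, y, hy, rfl⟩
    · rintro ⟨_, ⟨x, hx, rfl⟩, y, hy, rfl⟩
      exact ⟨x, hx, y, hy, rfl⟩
  | comp _ _ iha ihb =>
    obtain ⟨a, ha⟩ := iha; obtain ⟨b, hb⟩ := ihb
    refine ⟨.comp a b, fun n => ?_⟩
    have ha' : ev g a = _ := funext ha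
    simp only [ev, ha', hb]
    rfl
  | prec _ _ iha ihb =>
    obtain ⟨a, ha⟩ := iha; obtain ⟨b, hb⟩ := ihb
    refine ⟨.prec a b, fun n => ?_⟩
    simp only [ev, ha, hb]
    rfl
  | rfind _ iha =>
    obtain ⟨a, ha⟩ := iha
    refine ⟨.rfind a, fun n => ?_⟩
    simp only [ev, ha]
    rfl

def Agree (u : ℕ) (g g' : ℕ → ℕ → ℕ) : Prop := ∀ i < u, ∀ j < u, g i j = g' i j

theorem Agree.mono {u v : ℕ} {g g' : ℕ → ℕ → ℕ} (h : Agree v g g') (huv : u ≤ v) :
    Agree u g g' := fun i hi j hj => h i (by omega) j (by omega)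

theorem ev_cont (g : ℕ → ℕ → ℕ) (a : Cd) : ∀ n m, m ∈ ev g a n →
    ∃ u, ∀ g', Agree u g g' → m ∈ ev g' a n := by
  induction a with
  | zero => intro n m h; exact ⟨0, fun g' _ => h⟩
  | succ => intro n m h; exact ⟨0, fun g' _ => h⟩
  | left => intro n m h; exact ⟨0, fun g' _ => h⟩
  | right => intro n m h; exact ⟨0, fun g' _ => h⟩
  | oracle i =>
    intro n m h
    refine ⟨max i n + 1, fun g' hg => ?_⟩
    simp only [ev, Part.mem_some_iff] at h ⊢
    rw [h, hg i (by omega) n (by omega)]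
  | pair a b iha ihb =>
    intro n m h
    simp only [ev, Part.mem_bind_iff, Part.mem_some_iff] at h ⊢
    obtain ⟨x, hx, y, hy, rfl⟩ := h
    obtain ⟨u, hu⟩ := iha n x hx
    obtain ⟨v, hv⟩ := ihb n y hy
    exact ⟨max u v, fun g' hg => ⟨x, hu g' (hg.mono (le_max_left _ _)), y,
      hv g' (hg.mono (le_max_right _ _)), rfl⟩⟩
  | comp a b iha ihb =>
    intro n m h
    simp only [ev, Part.mem_bind_iff] at h ⊢
    obtain ⟨x, hx, hm⟩ := h
    obtain ⟨u, hu⟩ := ihb n x hx
    obtain ⟨v, hv⟩ := iha x m hm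
    exact ⟨max u v, fun g' hg => ⟨x, hu g' (hg.mono (le_max_left _ _)),
      hv g' (hg.mono (le_max_right _ _))⟩⟩
  | prec a b iha ihb =>
    intro p m h
    simp only [ev] at h ⊢
    generalize (Nat.unpair p).1 = x at h ⊢
    generalize (Nat.unpair p).2 = n at h ⊢
    induction n generalizing m with
    | zero =>
      exact iha x m h
    | succ n ih =>
      simp only [Part.mem_bind_iff] at h ⊢
      obtain ⟨i, hi, hm⟩ := h
      obtain ⟨u, hu⟩ := ih i hi
      obtain ⟨v, hv⟩ := ihb _ m hm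
      exact ⟨max u v, fun g' hg => ⟨i, hu g' (hg.mono (le_max_left _ _)),
        hv g' (hg.mono (le_max_right _ _))⟩⟩
  | rfind a iha =>
    intro x m h
    simp only [ev] at h ⊢
    have h' := Nat.mem_rfind.1 h
    obtain ⟨h1, h2⟩ := h'
    obtain ⟨y, hy, hy0⟩ := (Part.mem_map_iff _).1 h1
    obtain ⟨u, hu⟩ := iha _ y hy
    have : ∀ k, ∃ v, k < m → ∀ g', Agree v g g' →
        ∃ z, z ∈ ev g' a (Nat.pair x k) ∧ decide (z = 0) = false := by
      intro k
      by_cases hk : k < m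
      · obtain ⟨z, hz, hz0⟩ := (Part.mem_map_iff _).1 (h2 hk)
        obtain ⟨v, hv⟩ := iha _ z hz
        exact ⟨v, fun _ g' hg => ⟨z, hv g' hg, hz0⟩⟩
      · exact ⟨0, fun h => absurd h hk⟩
    choose v hv using this
    refine ⟨max u ((Finset.range m).sup v), fun g' hg => ?_⟩
    refine Nat.mem_rfind.2 ⟨?_, fun {k} hk => ?_⟩
    · exact (Part.mem_map_iff _).2 ⟨y, hu g' (hg.mono (le_max_left _ _)), hy0⟩
    · exact (Part.mem_map_iff _).2 (hv k hk g' (hg.mono (le_trans
        (Finset.le_sup (f := v) (Finset.mem_range.2 hk)) (le_max_right _ _))))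

end X97.RH
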