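import Mathlib

/-!
# Definitions for MP_6fabb2_lc (rainbow Ramsey versus Hindman for exactly two summands)

An `ω`-model of `RCA₀` is given by its sets of natural numbers, and these form a Turing ideal; we
describe it by the set `M` of its functions `ℕ → ℕ` (a set of naturals is in the model when its
characteristic function is, a function when its graph is).
-/

namespace X97.RH

/-- The join of two functions. -/
def join (f g : ℕ → ℕ) : ℕ → ℕ := fun n => if n % 2 = 0 then f (n / 2) else g (n / 2)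

/-- `M` is a Turing ideal: non-empty, closed under joins and downward closed under (Mathlib's)
Turing reducibility. -/
structure IsTuringIdeal (M : Set (ℕ → ℕ)) : Prop where
  nonempty : M.Nonempty
  join_mem : ∀ f ∈ M, ∀ g ∈ M, join f g ∈ M
  down : ∀ f ∈ M, ∀ g : ℕ → ℕ, TuringReducible (g : ℕ →. ℕ) (f : ℕ →. ℕ) → g ∈ M

/-- `h` is the characteristic function of `H`. -/
def IsChar (h : ℕ → ℕ) (H : Set ℕ) : Prop := ∀ n, (n ∈ H → h n = 1) ∧ (n ∉ H → h n = 0)

/-- `f` codes a colouring of pairs: the colour of `{x, y}`, `x < y`, is `f ⟨x, y⟩`.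
It is `2`-bounded when every colour is assigned to at most two pairs. -/
def TwoBounded (f : ℕ → ℕ) : Prop :=
  ∀ i, {p : ℕ × ℕ | p.1 < p.2 ∧ f (Nat.pair p.1 p.2) = i}.encard ≤ 2

/-- `H` is rainbow: the colouring coded by `f` is injective on the pairs from `H`. -/
def Rainbow (f : ℕ → ℕ) (H : Set ℕ) : Prop :=
  Set.InjOn (fun p : ℕ × ℕ => f (Nat.pair p.1 p.2)) {p | p.1 < p.2 ∧ p.1 ∈ H ∧ p.2 ∈ H}

/-- `RRT²₂` holds in the `ω`-model `M`. -/
def RRT22 (M : Set (ℕ → ℕ)) : Prop :=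
  ∀ f ∈ M, TwoBounded f → ∃ H : Set ℕ, H.Infinite ∧ Rainbow f H ∧ ∃ h ∈ M, IsChar h H

/-- `HT^{=2}₂` holds in the `ω`-model `M`. -/
def HT22 (M : Set (ℕ → ℕ)) : Prop :=
  ∀ c ∈ M, (∀ n, c n < 2) → ∃ H : Set ℕ, H.Infinite ∧
    (∃ i, ∀ x ∈ H, ∀ y ∈ H, x ≠ y → c (x + y) = i) ∧ ∃ h ∈ M, IsChar h H

end X97.RH
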