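import Mathlib

/-! # Rotations: three points that are in no half circle -/

namespace X97.RH

open MeasureTheory

/-- Colour of a phase. -/
noncomputable def cl (x : ℝ) : ℕ := if Int.fract x < 1 / 2 then 0 else 1

theorem cl_lt (x : ℝ) : cl x < 2 := by
  unfold cl; split <;> norm_num

theorem not_mono {A B D : ℝ} {k l : ℤ} (h1 : |B - A - k - 1 / 3| ≤ 1 / 15)
    (h2 : |D - A - l - 2 / 3| ≤ 1 / 15) (e1 : cl A = cl B) (e2 : cl A = cl D) : False := by
  have hA := Int.fract_nonneg A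
  have hB := Int.fract_nonneg B
  have hD := Int.fract_nonneg D
  have hA1 := Int.fract_lt_one A
  have hB1 := Int.fract_lt_one B
  have hD1 := Int.fract_lt_one D
  have ea := Int.self_sub_floor A
  have eb := Int.self_sub_floor B
  have ed := Int.self_sub_floor D
  have key : ∀ a b d : ℝ, a = Int.fract A → b = Int.fract B → d = Int.fract D →
      |b - a| < 1 / 2 → |d - a| < 1 / 2 → |b - d| < 1 / 2 → False := by
    intro a b d ha hb hd g1 g2 g3
    rw [abs_lt] at g1 g2 g3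
    rw [abs_le] at h1 h2
    have hK : ((⌊B⌋ - ⌊A⌋ - k : ℤ) : ℝ) = (⌊B⌋ : ℝ) - ⌊A⌋ - k := by push_cast; ring
    have hL : ((⌊D⌋ - ⌊A⌋ - l : ℤ) : ℝ) = (⌊D⌋ : ℝ) - ⌊A⌋ - l := by push_cast; ring
    have K1 : (⌊B⌋ - ⌊A⌋ - k : ℤ) < 1 := by
      have : ((⌊B⌋ - ⌊A⌋ - k : ℤ) : ℝ) < ((1 : ℤ) : ℝ) := by rw [hK]; push_cast; linarith
      exact_mod_cast this
    have K2 : (-1 : ℤ) < (⌊B⌋ - ⌊A⌋ - k : ℤ) := by
      have : ((-1 : ℤ) : ℝ) < ((⌊B⌋ - ⌊A⌋ - k : ℤ) : ℝ) := by rw [hK]; push_cast; linarith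
      exact_mod_cast this
    have L1 : (⌊D⌋ - ⌊A⌋ - l : ℤ) < 2 := by
      have : ((⌊D⌋ - ⌊A⌋ - l : ℤ) : ℝ) < ((2 : ℤ) : ℝ) := by rw [hL]; push_cast; linarith
      exact_mod_cast this
    have L2 : (0 : ℤ) < (⌊D⌋ - ⌊A⌋ - l : ℤ) := by
      have : ((0 : ℤ) : ℝ) < ((⌊D⌋ - ⌊A⌋ - l : ℤ) : ℝ) := by rw [hL]; push_cast; linarith
      exact_mod_cast this
    have K0 : (⌊B⌋ - ⌊A⌋ - k : ℤ) = 0 := by omega
    have L0 : (⌊D⌋ - ⌊A⌋ - l : ℤ) = 1 := by omega
    rw [K0] at hK; rw [L0] at hL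
    push_cast at hK hL
    linarith
  unfold cl at e1 e2
  by_cases h3 : Int.fract A < 1 / 2
  · by_cases h4 : Int.fract B < 1 / 2
    · by_cases h5 : Int.fract D < 1 / 2
      · exact key _ _ _ rfl rfl rfl (abs_lt.2 ⟨by linarith, by linarith⟩)
          (abs_lt.2 ⟨by linarith, by linarith⟩) (abs_lt.2 ⟨by linarith, by linarith⟩)
      · rw [if_pos h3, if_neg h5] at e2; omega
    · rw [if_pos h3, if_neg h4] at e1; omega
  · by_cases h4 : Int.fract B < 1 / 2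
    · rw [if_neg h3, if_pos h4] at e1; omega
    · by_cases h5 : Int.fract D < 1 / 2
      · rw [if_neg h3, if_pos h5] at e2; omega
      · exact key _ _ _ rfl rfl rfl (abs_lt.2 ⟨by linarith, by linarith⟩)
          (abs_lt.2 ⟨by linarith, by linarith⟩) (abs_lt.2 ⟨by linarith, by linarith⟩)

theorem near (t : ℝ) : ∃ i : ℕ, i < 30 ∧ ∃ k : ℤ, |t + (i : ℝ) / 30 - k| ≤ 1 / 60 := by
  set N : ℤ := round (-30 * t) with hN
  have h1 : |(-30 * t) - N| ≤ 1 / 2 := abs_sub_round _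
  have h2 : 0 ≤ N % 30 := Int.emod_nonneg _ (by norm_num)
  have h3 : N % 30 < 30 := Int.emod_lt_of_pos _ (by norm_num)
  obtain ⟨i, hi⟩ := Int.eq_ofNat_of_zero_le h2
  refine ⟨i, by omega, -(N / 30), ?_⟩
  have h4 : N = 30 * (N / 30) + i := by omega
  have h5 : (N : ℝ) = 30 * ((N / 30 : ℤ) : ℝ) + i := by exact_mod_cast h4
  rw [abs_le] at h1 ⊢
  push_cast
  constructor <;> linarith

/-- Rotation numbers for which `0`, `u α`, `v α` are near `0`, `1/3`, `2/3`. -/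
def Good (u v : ℕ) : Set ℝ :=
  {α | ∃ k l : ℤ, |u * α - k - 1 / 3| ≤ 1 / 30 ∧ |v * α - l - 2 / 3| ≤ 1 / 30}

theorem measurableSet_Good (u v : ℕ) : MeasurableSet (Good u v) := by
  have : Good u v = ⋃ k : ℤ, ⋃ l : ℤ, {α : ℝ | |(u : ℝ) * α - k - 1 / 3| ≤ 1 / 30} ∩
      {α : ℝ | |(v : ℝ) * α - l - 2 / 3| ≤ 1 / 30} := by
    ext α; simp [Good]
  rw [this]
  refine MeasurableSet.iUnion fun k => MeasurableSet.iUnion fun l => ?_
  refine MeasurableSet.inter ?_ ?_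
  · exact (isClosed_le (by fun_prop) continuous_const).measurableSet
  · exact (isClosed_le (by fun_prop) continuous_const).measurableSet

theorem cover {u v : ℕ} (hu : 0 < u) (hv : 60 * u ≤ v) (α : ℝ) :
    ∃ i : ℕ, i < 30 ∧ ∃ j : ℕ, j < 30 ∧ α + ((i : ℝ) / (30 * u) + (j : ℝ) / (30 * v)) ∈ Good u v := by
  have hu' : (0 : ℝ) < u := by exact_mod_cast hu
  have hv0 : 0 < v := by omega
  have hv' : (0 : ℝ) < v := by exact_mod_cast hv0
  have huv : 60 * (u : ℝ) ≤ v := by exact_mod_cast hv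
  obtain ⟨i, hi, k, hk⟩ := near (u * α - 1 / 3)
  obtain ⟨j, hj, l, hl⟩ := near (v * (α + (i : ℝ) / (30 * u)) - 2 / 3)
  refine ⟨i, hi, j, hj, k, l, ?_, ?_⟩
  · have e1 : (u : ℝ) * (α + ((i : ℝ) / (30 * u) + (j : ℝ) / (30 * v))) - k - 1 / 3 =
      (u * α - 1 / 3 + (i : ℝ) / 30 - k) + (u : ℝ) * ((j : ℝ) / (30 * v)) := by
      field_simp; ring
    rw [e1]
    have e2 : (0 : ℝ) ≤ (u : ℝ) * ((j : ℝ) / (30 * v)) := by positivity
    have e3 : (u : ℝ) * ((j : ℝ) / (30 * v)) ≤ 1 / 60 := by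
      have hj' : (j : ℝ) ≤ 30 := by exact_mod_cast hj.le
      rw [← mul_div_assoc, div_le_iff₀ (by positivity)]
      nlinarith
    rw [abs_le] at hk ⊢
    constructor <;> linarith
  · have e1 : (v : ℝ) * (α + ((i : ℝ) / (30 * u) + (j : ℝ) / (30 * v))) - l - 2 / 3 =
      v * (α + (i : ℝ) / (30 * u)) - 2 / 3 + (j : ℝ) / 30 - l := by
      field_simp; ring
    rw [e1]
    exact hl.trans (by norm_num)

theorem volume_good {u v : ℕ} (hu : 0 < u) (hv : 60 * u ≤ v) (α ρ : ℝ)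
    (hρ : 4 ≤ ρ * u) : ENNReal.ofReal (ρ / 900) ≤
      volume (Good u v ∩ Set.Ioo (α - ρ) (α + ρ)) := by
  have hu' : (0 : ℝ) < u := by exact_mod_cast hu
  have hv0 : 0 < v := by omega
  have hv' : (0 : ℝ) < v := by exact_mod_cast hv0
  have huv : 60 * (u : ℝ) ≤ v := by exact_mod_cast hv
  have hρ0 : 0 < ρ := by
    by_contra h
    nlinarith
  set G := Good u v ∩ Set.Ioo (α - ρ) (α + ρ) with hG
  set δ : ℕ × ℕ → ℝ := fun p => (p.1 : ℝ) / (30 * u) + (p.2 : ℝ) / (30 * v) with hδ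
  have hcov : Set.Ioo (α - ρ / 2) (α + ρ / 2) ⊆
      ⋃ p ∈ (Finset.range 30 ×ˢ Finset.range 30), (fun x => x + δ p) ⁻¹' G := by
    intro x hx
    obtain ⟨i, hi, j, hj, hgood⟩ := cover hu hv x
    simp only [Set.mem_iUnion, Set.mem_preimage]
    refine ⟨(i, j), Finset.mem_product.2 ⟨Finset.mem_range.2 hi, Finset.mem_range.2 hj⟩, hgood, ?_⟩
    have hi' : (i : ℝ) ≤ 30 := by exact_mod_cast hi.le
    have hj' : (j : ℝ) ≤ 30 := by exact_mod_cast hj.le
    have d0 : 0 ≤ δ (i, j) := by simp only [hδ]; positivity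
    have d1 : (i : ℝ) / (30 * u) ≤ ρ / 4 := by
      rw [div_le_iff₀ (by positivity)]; nlinarith
    have d2 : (j : ℝ) / (30 * v) ≤ ρ / 4 := by
      rw [div_le_iff₀ (by positivity)]
      have : ρ * u ≤ ρ * v := by apply mul_le_mul_of_nonneg_left _ hρ0.le; linarith
      nlinarith
    have d3 : δ (i, j) ≤ ρ / 2 := by simp only [hδ]; linarith
    constructor
    · linarith [hx.1]
    · linarith [hx.2]
  have h1 : ENNReal.ofReal ρ ≤ 900 * volume G := by
    calc ENNReal.ofReal ρ = volume (Set.Ioo (α - ρ / 2) (α + ρ / 2)) := by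
          rw [Real.volume_Ioo]; congr 1; ring
      _ ≤ volume (⋃ p ∈ (Finset.range 30 ×ˢ Finset.range 30), (fun x => x + δ p) ⁻¹' G) :=
          measure_mono hcov
      _ ≤ ∑ p ∈ (Finset.range 30 ×ˢ Finset.range 30), volume ((fun x => x + δ p) ⁻¹' G) :=
          measure_biUnion_finset_le _ _
      _ = ∑ p ∈ (Finset.range 30 ×ˢ Finset.range 30), volume G := by
          refine Finset.sum_congr rfl fun p _ => ?_
          exact measure_preimage_add_right _ _ _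
      _ = 900 * volume G := by
          rw [Finset.sum_const, Finset.card_product]
          simp
  rw [ENNReal.ofReal_div_of_pos (by norm_num)]
  apply ENNReal.div_le_of_le_mul
  rw [mul_comm]
  simpa using h1

end X97.RH
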