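import Pool.Agent.X97.RH.Clos
import Pool.Agent.X97.RH.Code
import Pool.Agent.X97.RH.Meas
import Pool.Agent.X97.RH.Rot

/-! # A colouring without solutions computed by random oracles -/

namespace X97.RH

open MeasureTheory Set
open scoped ENNReal

/-- The phase after `x` steps. -/
noncomputable def th (β : ℕ → ℝ) (x : ℕ) : ℝ := ∑ j ∈ Finset.range x, β j

/-- The colouring by the phases. -/
noncomputable def col (β : ℕ → ℝ) (x : ℕ) : ℕ := cl (th β x)

/-- `H` is a solution of the instance `c` of `HT^{=2}`. -/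
def SolSet (c : ℕ → ℕ) (H : Set ℕ) : Prop :=
  H.Infinite ∧ ∃ i, ∀ x ∈ H, ∀ y ∈ H, x ≠ y → c (x + y) = i

def ContF (H : (ℕ → ℕ) → (ℕ → ℕ) → Set ℕ) : Prop :=
  ∀ c X x, x ∈ H c X → ∃ u, ∀ c' X', (∀ j < u, c' j = c j) → (∀ j < u, X' j = X j) → x ∈ H c' X'

def Hf (H : (ℕ → ℕ) → (ℕ → ℕ) → Set ℕ) (u : ℕ) (c X : ℕ → ℕ) : Set ℕ :=
  {x | ∀ c' X', (∀ j < u, c' j = c j) → (∀ j < u, X' j = X j) → x ∈ H c' X'}

theorem Hf_mono {H : (ℕ → ℕ) → (ℕ → ℕ) → Set ℕ} {u v : ℕ} (huv : u ≤ v) (c X : ℕ → ℕ) :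
    Hf H u c X ⊆ Hf H v c X := fun _ hx c' X' h1 h2 =>
  hx c' X' (fun j hj => h1 j (by omega)) (fun j hj => h2 j (by omega))

structure Cond where
  n : ℕ
  β : ℕ → ℝ
  α : ℝ
  ρ : ℝ
  hρ : 0 < ρ

def Cond.K (p : Cond) : Set (ℕ → ℝ) :=
  {β' | (∀ j < p.n, β' j = p.β j) ∧ ∀ j, p.n ≤ j → |β' j - p.α| ≤ p.ρ}

theorem Cond.K_eq (p : Cond) : p.K = Set.pi univ
    (fun j => if j < p.n then {p.β j} else Icc (p.α - p.ρ) (p.α + p.ρ)) := by
  ext β'
  simp only [Cond.K, mem_ofPred_eq, Set.mem_pi, mem_univ, true_implies]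
  constructor
  · rintro ⟨h1, h2⟩ j
    split_ifs with hj
    · exact h1 j hj
    · have := h2 j (by omega)
      rw [abs_le] at this
      constructor <;> linarith
  · intro h
    refine ⟨fun j hj => ?_, fun j hj => ?_⟩
    · have := h j
      rw [if_pos hj] at this; exact this
    · have := h j
      rw [if_neg (by omega)] at this
      rw [abs_le]
      constructor <;> linarith [this.1, this.2]

theorem Cond.isCompact (p : Cond) : IsCompact p.K := by
  rw [p.K_eq]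
  refine isCompact_univ_pi fun j => ?_
  split_ifs
  · exact isCompact_singleton
  · exact isCompact_Icc

theorem Cond.nonempty (p : Cond) : p.K.Nonempty :=
  ⟨fun j => if j < p.n then p.β j else p.α, fun j hj => by simp [hj],
    fun j hj => by simp [not_lt.2 hj, p.hρ.le]⟩

theorem th_succ (β : ℕ → ℝ) (x : ℕ) : th β (x + 1) = th β x + β x := Finset.sum_range_succ _ _

theorem th_congr {β β' : ℕ → ℝ} {x : ℕ} (h : ∀ j < x, β' j = β j) : th β' x = th β x :=
  Finset.sum_congr rfl fun j hj => h j (Finset.mem_range.1 hj)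

theorem th_diff {q : Cond} {β' : ℕ → ℝ} (hβ : β' ∈ q.K) {x : ℕ} (hx : q.n ≤ x) (s : ℕ) :
    |th β' (x + s) - th β' x - s * q.α| ≤ s * q.ρ := by
  induction s with
  | zero => simp
  | succ s ih =>
    have h1 := hβ.2 (x + s) (by omega)
    rw [← add_assoc, th_succ]
    rw [abs_le] at ih h1 ⊢
    push_cast
    constructor <;> linarith [ih.1, ih.2, h1.1, h1.2]

/-- The constant. -/
noncomputable def tht : ℝ≥0∞ := ENNReal.ofReal (3999 / 4000)

def Spread (U : ℕ) (t : ℕ × ℕ × ℕ) : Prop :=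
  t.1 < t.2.1 ∧ U ≤ t.2.1 - t.1 ∧ t.2.1 < t.2.2 ∧ 60 * (t.2.1 - t.1) ≤ t.2.2 - t.1

open Classical in
noncomputable def Ts (U m : ℕ) : Finset (ℕ × ℕ × ℕ) :=
  (Finset.range (m + 1) ×ˢ Finset.range (m + 1) ×ˢ Finset.range (m + 1)).filter (Spread U)

theorem mem_Ts {U m : ℕ} {t : ℕ × ℕ × ℕ} :
    t ∈ Ts U m ↔ (t.1 ≤ m ∧ t.2.1 ≤ m ∧ t.2.2 ≤ m) ∧ Spread U t := by
  simp only [Ts, Finset.mem_filter, Finset.mem_product, Finset.mem_range]
  constructor
  · rintro ⟨⟨h1, h2, h3⟩, h4⟩; exact ⟨⟨by omega, by omega, by omega⟩, h4⟩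
  · rintro ⟨⟨h1, h2, h3⟩, h4⟩; exact ⟨⟨by omega, by omega, by omega⟩, h4⟩

def Et (H : (ℕ → ℕ) → (ℕ → ℕ) → Set ℕ) (C : Set (ℕ → ℕ)) (c : ℕ → ℕ) (m : ℕ) (t : ℕ × ℕ × ℕ) :
    Set (ℕ → ℕ) := C ∩ {X | t.1 ∈ Hf H m c X ∧ t.2.1 ∈ Hf H m c X ∧ t.2.2 ∈ Hf H m c X}

theorem Et_meas (H : (ℕ → ℕ) → (ℕ → ℕ) → Set ℕ) {C : Set (ℕ → ℕ)} (hC : MeasurableSet C)
    (c : ℕ → ℕ) (m : ℕ) (t : ℕ × ℕ × ℕ) : MeasurableSet (Et H C c m t) := by
  refine hC.inter (Det.measurableSet (m := m) ?_)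
  have key : ∀ X X' : ℕ → ℕ, (∀ j < m, X j = X' j) → ∀ x, x ∈ Hf H m c X → x ∈ Hf H m c X' :=
    fun X X' h x hx c' X'' h1 h2 => hx c' X'' h1 fun j hj => (h2 j hj).trans (h j hj).symm
  rintro X X' h ⟨h1, h2, h3⟩
  exact ⟨key X X' h _ h1, key X X' h _ h2, key X X' h _ h3⟩

def Em (H : (ℕ → ℕ) → (ℕ → ℕ) → Set ℕ) (C : Set (ℕ → ℕ)) (c : ℕ → ℕ) (U m : ℕ) :
    Set (ℕ → ℕ) := ⋃ t ∈ Ts U m, Et H C c m t

theorem Em_meas (H : (ℕ → ℕ) → (ℕ → ℕ) → Set ℕ) {C : Set (ℕ → ℕ)} (hC : MeasurableSet C)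
    (c : ℕ → ℕ) (U m : ℕ) : MeasurableSet (Em H C c U m) :=
  Finset.measurableSet_biUnion _ fun t _ => Et_meas H hC c m t

theorem Em_mono (H : (ℕ → ℕ) → (ℕ → ℕ) → Set ℕ) (C : Set (ℕ → ℕ)) (c : ℕ → ℕ) (U : ℕ) :
    Monotone (Em H C c U) := by
  intro m m' hm X hX
  simp only [Em, mem_iUnion] at hX ⊢
  obtain ⟨t, ht, hX⟩ := hX
  rw [mem_Ts] at ht
  refine ⟨t, mem_Ts.2 ⟨⟨by omega, by omega, by omega⟩, ht.2⟩, hX.1, Hf_mono hm c X hX.2.1,
    Hf_mono hm c X hX.2.2.1, Hf_mono hm c X hX.2.2.2⟩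

theorem sub_Em {H : (ℕ → ℕ) → (ℕ → ℕ) → Set ℕ} (hH : ContF H) (C : Set (ℕ → ℕ)) (c : ℕ → ℕ)
    (U : ℕ) : C ∩ {X | SolSet c (H c X)} ⊆ ⋃ m, Em H C c U m := by
  rintro X ⟨hXC, hinf, -⟩
  obtain ⟨a, ha⟩ := hinf.nonempty
  obtain ⟨b, hb, hab⟩ := hinf.exists_gt (a + U)
  obtain ⟨d, hd, hbd⟩ := hinf.exists_gt (a + 60 * (b - a) + b)
  obtain ⟨ua, hua⟩ := hH c X a ha
  obtain ⟨ub, hub⟩ := hH c X b hb
  obtain ⟨ud, hud⟩ := hH c X d hd
  refine mem_iUnion.2 ⟨max (max ua ub) (max ud d), ?_⟩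
  simp only [Em, mem_iUnion]
  refine ⟨(a, b, d), mem_Ts.2 ⟨⟨?_, ?_, ?_⟩, ?_⟩, hXC, ?_, ?_, ?_⟩
  · simp only; omega
  · simp only; omega
  · simp only; omega
  · refine ⟨?_, ?_, ?_, ?_⟩ <;> simp only <;> omega
  · exact Hf_mono (by omega) c X (show a ∈ Hf H ua c X from hua)
  · exact Hf_mono (by omega) c X (show b ∈ Hf H ub c X from hub)
  · exact Hf_mono (by omega) c X (show d ∈ Hf H ud c X from hud)

/-- The part of `Em` with a triple that is good for `α'`. -/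
def Dm (H : (ℕ → ℕ) → (ℕ → ℕ) → Set ℕ) (C : Set (ℕ → ℕ)) (c : ℕ → ℕ) (U m : ℕ) (α' : ℝ) :
    Set (ℕ → ℕ) := {X | ∃ t ∈ Ts U m, α' ∈ Good (t.2.1 - t.1) (t.2.2 - t.1) ∧ X ∈ Et H C c m t}

theorem Dm_meas (H : (ℕ → ℕ) → (ℕ → ℕ) → Set ℕ) {C : Set (ℕ → ℕ)} (hC : MeasurableSet C)
    (c : ℕ → ℕ) (U m : ℕ) (α' : ℝ) : MeasurableSet (Dm H C c U m α') := by
  classical
  have : Dm H C c U m α' = ⋃ t ∈ (Ts U m).filter
      (fun t => α' ∈ Good (t.2.1 - t.1) (t.2.2 - t.1)), Et H C c m t := by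
    ext X
    simp only [Dm, mem_ofPred_eq, mem_iUnion, Finset.mem_filter]
    constructor
    · rintro ⟨t, h1, h2, h3⟩; exact ⟨t, ⟨h1, h2⟩, h3⟩
    · rintro ⟨t, ⟨h1, h2⟩, h3⟩; exact ⟨t, h1, h2, h3⟩
  rw [this]
  exact Finset.measurableSet_biUnion _ fun t _ => Et_meas H hC c m t

theorem exists_alpha (H : (ℕ → ℕ) → (ℕ → ℕ) → Set ℕ) {C : Set (ℕ → ℕ)} (hC : MeasurableSet C)
    (c : ℕ → ℕ) (U m : ℕ) (α ρ : ℝ) (hρ : 0 < ρ) (hU : 4 ≤ ρ * U)
    (hpos : 0 < (mu (Em H C c U m)).toReal) :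
    ∃ α' ∈ Ioo (α - ρ) (α + ρ),
      (mu (Em H C c U m)).toReal / 3600 < (mu (Dm H C c U m α')).toReal := by
  by_contra hcon
  push Not at hcon
  set e := (mu (Em H C c U m)).toReal with he
  set I := Ioo (α - ρ) (α + ρ) with hI
  set P : Set (ℝ × (ℕ → ℕ)) := ⋃ t ∈ Ts U m,
    (Good (t.2.1 - t.1) (t.2.2 - t.1)) ×ˢ (Et H C c m t) with hP
  have hPm : MeasurableSet P := Finset.measurableSet_biUnion _ fun t _ =>
    (measurableSet_Good _ _).prod (Et_meas H hC c m t)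
  have hsec : ∀ α', Prod.mk α' ⁻¹' P = Dm H C c U m α' := by
    intro α'
    ext X
    simp only [hP, mem_preimage, mem_iUnion, mem_prod, Dm, mem_ofPred_eq, exists_prop]
  have h1 : ((volume.restrict I).prod mu) P ≤ ENNReal.ofReal (e / 3600) * ENNReal.ofReal (2 * ρ) := by
    rw [Measure.prod_apply hPm]
    simp only [hsec]
    calc ∫⁻ x in I, mu (Dm H C c U m x) ≤ ∫⁻ x in I, ENNReal.ofReal (e / 3600) := by
          refine setLIntegral_mono measurable_const fun x hx => ?_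
          rw [← ENNReal.ofReal_toReal (measure_ne_top mu (Dm H C c U m x))]
          exact ENNReal.ofReal_le_ofReal (hcon x hx)
      _ = ENNReal.ofReal (e / 3600) * ENNReal.ofReal (2 * ρ) := by
          rw [setLIntegral_const, hI, Real.volume_Ioo]
          congr 2; ring
  have h2 : ENNReal.ofReal (ρ / 900) * ENNReal.ofReal e ≤ ((volume.restrict I).prod mu) P := by
    rw [Measure.prod_apply_symm hPm]
    calc ENNReal.ofReal (ρ / 900) * ENNReal.ofReal e
        = ∫⁻ X in Em H C c U m, ENNReal.ofReal (ρ / 900) ∂mu := by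
          rw [setLIntegral_const, he, ENNReal.ofReal_toReal (measure_ne_top _ _)]
      _ ≤ ∫⁻ X in Em H C c U m, (volume.restrict I) ((fun x => (x, X)) ⁻¹' P) ∂mu := by
          refine setLIntegral_mono' (Em_meas H hC c U m) fun X hX => ?_
          simp only [Em, mem_iUnion] at hX
          obtain ⟨t, ht, hXt⟩ := hX
          have hts := (mem_Ts.1 ht).2
          obtain ⟨s1, s2, s3, s4⟩ := hts
          have hv := volume_good (u := t.2.1 - t.1) (v := t.2.2 - t.1) (by omega) s4 α ρ (by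
            have : (U : ℝ) ≤ ((t.2.1 - t.1 : ℕ) : ℝ) := by exact_mod_cast s2
            nlinarith)
          refine hv.trans ?_
          rw [Measure.restrict_apply' measurableSet_Ioo]
          refine measure_mono (inter_subset_inter_left _ fun x hx => ?_)
          simp only [hP, mem_preimage, mem_iUnion, mem_prod]
          exact ⟨t, ht, hx, hXt⟩
      _ ≤ ∫⁻ X, (volume.restrict I) ((fun x => (x, X)) ⁻¹' P) ∂mu := setLIntegral_le_lintegral _ _
  have h3 := h2.trans h1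
  rw [← ENNReal.ofReal_mul (by positivity), ← ENNReal.ofReal_mul (by positivity)] at h3
  have h4 := (ENNReal.ofReal_le_ofReal_iff (by positivity)).1 h3
  nlinarith [mul_pos hρ hpos]

theorem density {H : (ℕ → ℕ) → (ℕ → ℕ) → Set ℕ} (hH : ContF H) {C : Set (ℕ → ℕ)}
    (hC : MeasurableSet C) (p : Cond) :
    ∃ q : Cond, q.K ⊆ p.K ∧ ∀ β ∈ q.K,
      mu (C ∩ {X | SolSet (col β) (H (col β) X)}) ≤ tht * mu C := by
  by_cases hex : ∃ β ∈ p.K, tht * mu C < mu (C ∩ {X | SolSet (col β) (H (col β) X)})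
  swap
  · exact ⟨p, Subset.rfl, fun β hβ => not_lt.1 fun h => hex ⟨β, hβ, h⟩⟩
  obtain ⟨β, hβ, hlt⟩ := hex
  obtain ⟨U, hU⟩ := exists_nat_ge (4 / p.ρ)
  have hU' : 4 ≤ p.ρ * U := by
    rw [div_le_iff₀ p.hρ] at hU; linarith
  set c := col β with hc
  have h1 : tht * mu C < ⨆ m, mu (Em H C c U m) := by
    rw [← (Em_mono H C c U).measure_iUnion]
    exact hlt.trans_le (measure_mono (sub_Em hH C c U))
  obtain ⟨m, hm⟩ := lt_iSup_iff.1 h1
  have hCtop := measure_ne_top mu C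
  have hm' : 3999 / 4000 * (mu C).toReal < (mu (Em H C c U m)).toReal := by
    have := ENNReal.toReal_strict_mono (measure_ne_top mu _) hm
    rw [ENNReal.toReal_mul] at this
    unfold tht at this
    rwa [ENNReal.toReal_ofReal (by norm_num)] at this
  have hpos : 0 < (mu (Em H C c U m)).toReal :=
    lt_of_le_of_lt (by positivity) hm'
  obtain ⟨α', hα', hD⟩ := exists_alpha H hC c U m p.α p.ρ p.hρ hU' hpos
  set ρ' : ℝ := min (min (α' - (p.α - p.ρ)) ((p.α + p.ρ) - α')) (1 / (30 * (m + 1))) with hρ'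
  have hρ0 : 0 < ρ' := by
    refine lt_min (lt_min ?_ ?_) (by positivity)
    · linarith [hα'.1]
    · linarith [hα'.2]
  have r1 : ρ' ≤ α' - (p.α - p.ρ) := (min_le_left _ _).trans (min_le_left _ _)
  have r2 : ρ' ≤ (p.α + p.ρ) - α' := (min_le_left _ _).trans (min_le_right _ _)
  have r3 : ρ' ≤ 1 / (30 * (m + 1)) := min_le_right _ _
  have r4 : ∀ s : ℕ, s ≤ m → (s : ℝ) * ρ' ≤ 1 / 30 := by
    intro s hs
    have hs' : (s : ℝ) ≤ m := by exact_mod_cast hs
    calc (s : ℝ) * ρ' ≤ (m + 1) * (1 / (30 * (m + 1))) :=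
          mul_le_mul (by linarith) r3 hρ0.le (by positivity)
      _ = 1 / 30 := by field_simp
  set q : Cond := ⟨max m p.n, β, α', ρ', hρ0⟩ with hq
  refine ⟨q, ?_, ?_⟩
  · rintro β' ⟨h2, h3⟩
    refine ⟨fun j hj => ?_, fun j hj => ?_⟩
    · rw [h2 j (lt_of_lt_of_le hj (le_max_right _ _))]
      exact hβ.1 j hj
    · by_cases hj2 : j < max m p.n
      · rw [h2 j hj2]; exact hβ.2 j hj
      · have := h3 j (not_lt.1 hj2)
        rw [abs_le] at this ⊢
        simp only [hq] at this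
        constructor <;> linarith [this.1, this.2]
  · intro β' hβ'
    have hcol : ∀ j < m, col β' j = c j := by
      intro j hj
      rw [hc]
      unfold col
      rw [th_congr (β := β) (β' := β') fun i hi => hβ'.1 i (by
        have : m ≤ max m p.n := le_max_left _ _
        simp only [hq]; omega)]
    have hdisj : C ∩ {X | SolSet (col β') (H (col β') X)} ⊆ C \ Dm H C c U m α' := by
      rintro X ⟨hXC, hinf, i, hi⟩
      refine ⟨hXC, ?_⟩
      rintro ⟨⟨a, b, d⟩, ht, ⟨k, l, hk, hl⟩, -, ha, hb, hd⟩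
      obtain ⟨⟨t1, t2, t3⟩, s1, s2, s3, s4⟩ := mem_Ts.1 ht
      simp only at ha hb hd hk hl t1 t2 t3 s1 s2 s3 s4
      have ha' : a ∈ H (col β') X := ha _ X hcol (fun _ _ => rfl)
      have hb' : b ∈ H (col β') X := hb _ X hcol (fun _ _ => rfl)
      have hd' : d ∈ H (col β') X := hd _ X hcol (fun _ _ => rfl)
      obtain ⟨y, hy, hylt⟩ := hinf.exists_gt (max m p.n + d)
      have ca := hi y hy a ha' (by omega)
      have cb := hi y hy b hb' (by omega)
      have cd := hi y hy d hd' (by omega)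
      have hqn : q.n ≤ y + a := by simp only [hq]; omega
      have d1 := th_diff hβ' hqn (b - a)
      have d2 := th_diff hβ' hqn (d - a)
      have e1 : y + a + (b - a) = y + b := by omega
      have e2 : y + a + (d - a) = y + d := by omega
      rw [e1] at d1
      rw [e2] at d2
      have d1' := d1.trans (r4 (b - a) (by omega))
      have d2' := d2.trans (r4 (d - a) (by omega))
      simp only [hq] at d1' d2'
      refine not_mono (A := th β' (y + a)) (B := th β' (y + b)) (D := th β' (y + d)) (k := k)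
        (l := l) ?_ ?_ ?_ ?_
      · rw [abs_le] at d1' hk ⊢
        constructor <;> linarith [d1'.1, d1'.2, hk.1, hk.2]
      · rw [abs_le] at d2' hl ⊢
        constructor <;> linarith [d2'.1, d2'.2, hl.1, hl.2]
      · exact ca.trans cb.symm
      · exact ca.trans cd.symm
    refine (measure_mono hdisj).trans ?_
    have hDC : Dm H C c U m α' ⊆ C := by
      rintro X ⟨t, -, -, hX⟩; exact hX.1
    rw [measure_sdiff hDC (Dm_meas H hC c U m α').nullMeasurableSet (measure_ne_top _ _)]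
    rw [← ENNReal.toReal_le_toReal (by
      exact (tsub_le_self.trans_lt (measure_lt_top mu C)).ne)
      (ENNReal.mul_ne_top (by unfold tht; exact ENNReal.ofReal_ne_top) hCtop),
      ENNReal.toReal_sub_of_le (measure_mono hDC) hCtop, ENNReal.toReal_mul]
    unfold tht
    rw [ENNReal.toReal_ofReal (by norm_num)]
    nlinarith [ENNReal.toReal_nonneg (a := mu C)]

theorem generic {ι : Type} [Countable ι] [Nonempty ι]
    (H : ι → (ℕ → ℕ) → (ℕ → ℕ) → Set ℕ) (hH : ∀ i, ContF (H i))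
    (C : ι → Set (ℕ → ℕ)) (hC : ∀ i, MeasurableSet (C i)) :
    ∃ β : ℕ → ℝ, ∀ i, mu (C i ∩ {X | SolSet (col β) (H i (col β) X)}) ≤ tht * mu (C i) := by
  obtain ⟨enum, henum⟩ := exists_surjective_nat ι
  choose nxt hn1 hn2 using fun (i : ι) (p : Cond) => density (hH i) (hC i) p
  let s : ℕ → Cond := fun n => Nat.rec ⟨0, fun _ => 0, 0, 1, one_pos⟩ (fun n p => nxt (enum n) p) n
  have hs : ∀ n, s (n + 1) = nxt (enum n) (s n) := fun n => rfl
  obtain ⟨β, hβ⟩ := IsCompact.nonempty_iInter_of_sequence_nonempty_isCompact_isClosed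
    (fun n => (s n).K) (fun n => by simp only [hs]; exact hn1 _ _) (fun n => (s n).nonempty)
    (s 0).isCompact (fun n => (s n).isCompact.isClosed)
  refine ⟨β, fun i => ?_⟩
  obtain ⟨n, rfl⟩ := henum i
  refine hn2 (enum n) (s n) β ?_
  rw [← hs]
  exact mem_iInter.1 hβ (n + 1)

/-- The oracles of the computations. -/
def orc (g0 : ℕ → ℕ → ℕ) (c X : ℕ → ℕ) : ℕ → ℕ → ℕ
  | 0 => c
  | 1 => X
  | i + 2 => g0 i

theorem contF_code (g0 : ℕ → ℕ → ℕ) (a : Cd) :
    ContF fun c X => {x | 1 ∈ ev (orc g0 c X) a x} := by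
  intro c X x hx
  obtain ⟨u, hu⟩ := ev_cont _ a x 1 hx
  refine ⟨u, fun c' X' h1 h2 => hu _ ?_⟩
  rintro (_ | _ | i) hi j hj
  · exact (h1 j hj).symm
  · exact (h2 j hj).symm
  · rfl

instance : Nonempty Cd := ⟨.zero⟩

theorem exists_coloring (g0 : ℕ → ℕ → ℕ) : ∃ c : ℕ → ℕ, (∀ n, c n < 2) ∧
    ∀ᵐ (X : ℕ → ℕ) ∂mu, ∀ h : ℕ → ℕ, RI (insert (X : ℕ →. ℕ) (insert (c : ℕ →. ℕ)
      (range fun i => (g0 i : ℕ →. ℕ)))) h → ¬ SolSet c {n | h n = 1} := by
  obtain ⟨β, hβ⟩ := generic (ι := Cd × List ℕ)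
    (fun p c X => {x | 1 ∈ ev (orc g0 c X) p.1 x}) (fun p => contF_code g0 p.1)
    (fun p => PiNat.cylinder (fun i => p.2.getD i 0) p.2.length)
    (fun p => (cyl_det _ _).measurableSet)
  refine ⟨col β, fun n => cl_lt _, ?_⟩
  have hnull : ∀ a : Cd, mu {X | SolSet (col β) {x | 1 ∈ ev (orc g0 (col β) X) a x}} = 0 := by
    intro a
    refine null_of_density _ tht ?_ ?_ fun x n => ?_
    · unfold tht; simp
    · unfold tht
      rw [ENNReal.ofReal_lt_one]; norm_num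
    · have := hβ (a, (List.range n).map x)
      simp only at this
      have e : PiNat.cylinder (fun i => ((List.range n).map x).getD i 0) ((List.range n).map x).length
          = PiNat.cylinder x n := by
        ext y
        simp only [PiNat.mem_cylinder_iff, List.length_map, List.length_range]
        refine forall₂_congr fun i hi => ?_
        simp [List.getD, hi]
      rw [e] at this
      exact this
  have hae : ∀ᵐ (X : ℕ → ℕ) ∂mu, ∀ a : Cd, ¬ SolSet (col β) {x | 1 ∈ ev (orc g0 (col β) X) a x} := by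
    rw [ae_all_iff]
    intro a
    rw [ae_iff]
    simpa using hnull a
  filter_upwards [hae] with X hX h hh hsol
  have hrange : (insert (X : ℕ →. ℕ) (insert (col β : ℕ →. ℕ)
      (range fun i => (g0 i : ℕ →. ℕ)))) = range fun i => (orc g0 (col β) X i : ℕ →. ℕ) := by
    ext z
    simp only [mem_insert_iff, mem_range]
    constructor
    · rintro (rfl | rfl | ⟨i, rfl⟩)
      · exact ⟨1, rfl⟩
      · exact ⟨0, rfl⟩
      · exact ⟨i + 2, rfl⟩
    · rintro ⟨_ | _ | i, rfl⟩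
      · right; left; rfl
      · left; rfl
      · right; right; exact ⟨i, rfl⟩
  rw [hrange] at hh
  obtain ⟨a, ha⟩ := exists_code hh
  refine hX a ?_
  have e : {x | 1 ∈ ev (orc g0 (col β) X) a x} = {n | h n = 1} := by
    ext x
    simp only [mem_ofPred_eq]
    rw [ha x]
    simp [eq_comm]
  rw [e]; exact hsol

end X97.RH
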