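import Pool.Agent.X97.RH.Defs
import Pool.Agent.X97.RH.Meas

/-! # The join of two independent sequences of levels -/

namespace X97.RH

open MeasureTheory Set
open scoped ENNReal

theorem join_measurable : Measurable (fun p : (ℕ → ℕ) × (ℕ → ℕ) => join p.1 p.2) := by
  refine measurable_pi_lambda _ fun n => ?_
  by_cases hn : n % 2 = 0
  · simp only [join, hn, if_true]
    exact (measurable_pi_apply _).comp measurable_fst
  · simp only [join, hn, if_false]
    exact (measurable_pi_apply _).comp measurable_snd

theorem join_mp : MeasurePreserving (fun p : (ℕ → ℕ) × (ℕ → ℕ) => join p.1 p.2)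
    (mu.prod mu) mu := by
  classical
  refine ⟨join_measurable, ?_⟩
  unfold mu
  refine Measure.eq_infinitePi _ fun s t ht => ?_
  have hpi : MeasurableSet (Set.pi (s : Set ℕ) t) :=
    MeasurableSet.pi s.countable_toSet fun i _ => ht i
  rw [Measure.map_apply join_measurable hpi]
  have e : (fun p : (ℕ → ℕ) × (ℕ → ℕ) => join p.1 p.2) ⁻¹' (Set.pi (s : Set ℕ) t) =
      (Set.pi ((s.filter (fun n => n % 2 = 0)).image (· / 2) : Finset ℕ) (fun j => t (2 * j))) ×ˢ
      (Set.pi ((s.filter (fun n => ¬ n % 2 = 0)).image (· / 2) : Finset ℕ)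
        (fun j => t (2 * j + 1))) := by
    ext ⟨X, Y⟩
    simp only [mem_preimage, Set.mem_pi, mem_prod, Finset.coe_image, Finset.coe_filter,
      forall_mem_image, mem_ofPred_eq, Finset.mem_coe, join]
    constructor
    · intro h
      refine ⟨fun n hn => ?_, fun n hn => ?_⟩
      · have := h n hn.1
        rw [if_pos hn.2] at this
        have e2 : 2 * (n / 2) = n := by omega
        rw [e2]; exact this
      · have := h n hn.1
        rw [if_neg hn.2] at this
        have e2 : 2 * (n / 2) + 1 = n := by omega
        rw [e2]; exact this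
    · rintro ⟨h1, h2⟩ n hn
      by_cases hp : n % 2 = 0
      · rw [if_pos hp]
        have := h1 (x := n) ⟨hn, hp⟩
        have e2 : 2 * (n / 2) = n := by omega
        rw [e2] at this; exact this
      · rw [if_neg hp]
        have := h2 (x := n) ⟨hn, hp⟩
        have e2 : 2 * (n / 2) + 1 = n := by omega
        rw [e2] at this; exact this
  rw [e, Measure.prod_prod, Measure.infinitePi_pi _ (fun i _ => ht _),
    Measure.infinitePi_pi _ (fun i _ => ht _), Finset.prod_image, Finset.prod_image]
  · rw [← Finset.prod_filter_mul_prod_filter_not s (fun n => n % 2 = 0)]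
    congr 1
    · refine Finset.prod_congr rfl fun n hn => ?_
      have := (Finset.mem_filter.1 hn).2
      have e2 : 2 * (n / 2) = n := by omega
      rw [e2]
    · refine Finset.prod_congr rfl fun n hn => ?_
      have := (Finset.mem_filter.1 hn).2
      have e2 : 2 * (n / 2) + 1 = n := by omega
      rw [e2]
  · intro a ha b hb hab
    have h1 := (Finset.mem_filter.1 (Finset.mem_coe.1 ha)).2
    have h2 := (Finset.mem_filter.1 (Finset.mem_coe.1 hb)).2
    simp only at hab
    omega
  · intro a ha b hb hab
    have h1 := (Finset.mem_filter.1 (Finset.mem_coe.1 ha)).2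
    have h2 := (Finset.mem_filter.1 (Finset.mem_coe.1 hb)).2
    simp only at hab
    omega

end X97.RH
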