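import Pool.Agent.X97.RH.Clos
import Pool.Agent.X97.RH.Meas

/-! # A random algorithm for the rainbow Ramsey theorem for pairs -/

namespace X97.RH

open MeasureTheory Set Filter
open scoped ENNReal

open Classical in
/-- The greedy process: `y` is added to the current set `F` when the result is rainbow and the level
of `y` is at least `|F| + k`. -/
noncomputable def stt (f X : ℕ → ℕ) (k : ℕ) : ℕ → Finset ℕ
  | 0 => ∅
  | y + 1 => if Rainbow f ((insert y (stt f X k y) : Finset ℕ) : Set ℕ) ∧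
      (stt f X k y).card + k ≤ X y then insert y (stt f X k y) else stt f X k y

theorem Rainbow.mono {f : ℕ → ℕ} {H K : Set ℕ} (h : Rainbow f K) (hs : H ⊆ K) : Rainbow f H :=
  fun _ hp _ hq e => h ⟨hp.1, hs hp.2.1, hs hp.2.2⟩ ⟨hq.1, hs hq.2.1, hs hq.2.2⟩ e

variable {f X : ℕ → ℕ} {k : ℕ}

theorem stt_lt {y x : ℕ} (h : x ∈ stt f X k y) : x < y := by
  induction y with
  | zero => simp [stt] at h
  | succ y ih =>
    rw [stt] at h
    split_ifs at h with hc
    · rcases Finset.mem_insert.1 h with rfl | h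
      · omega
      · exact (ih h).trans (Nat.lt_succ_self _)
    · exact (ih h).trans (Nat.lt_succ_self _)

theorem stt_sub_succ (y : ℕ) : stt f X k y ⊆ stt f X k (y + 1) := by
  rw [stt]
  split_ifs with hc
  · exact Finset.subset_insert _ _
  · exact Finset.Subset.refl _

theorem stt_mono {y z : ℕ} (h : y ≤ z) : stt f X k y ⊆ stt f X k z :=
  monotone_nat_of_le_succ (f := fun y => stt f X k y) (fun y => stt_sub_succ y) h

theorem stt_rainbow (y : ℕ) : Rainbow f (stt f X k y : Set ℕ) := by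
  induction y with
  | zero => intro p hp; simp [stt] at hp
  | succ y ih =>
    rw [stt]
    split_ifs with hc
    · exact hc.1
    · exact ih

/-- The set produced by the process. -/
def Gs (f X : ℕ → ℕ) (k : ℕ) : Set ℕ := {y | y ∈ stt f X k (y + 1)}

theorem mem_stt_of {x y : ℕ} (h : x ∈ Gs f X k) (hxy : x < y) : x ∈ stt f X k y :=
  stt_mono (Nat.succ_le_of_lt hxy) h

theorem mem_Gs_of {x y : ℕ} (h : x ∈ stt f X k y) : x ∈ Gs f X k := by
  induction y with
  | zero => simp [stt] at h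
  | succ y ih =>
    by_cases hx : x = y
    · subst hx; exact h
    · rw [stt] at h
      split_ifs at h with hc
      · rcases Finset.mem_insert.1 h with h | h
        · exact absurd h hx
        · exact ih h
      · exact ih h

theorem Gs_rainbow : Rainbow f (Gs f X k) := by
  intro p hp q hq h
  have h1 : p ∈ {r : ℕ × ℕ | r.1 < r.2 ∧ r.1 ∈ (stt f X k (max p.2 q.2 + 1) : Set ℕ) ∧
      r.2 ∈ (stt f X k (max p.2 q.2 + 1) : Set ℕ)} :=
    ⟨hp.1, mem_stt_of hp.2.1 (by have := hp.1; omega), mem_stt_of hp.2.2 (by omega)⟩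
  have h2 : q ∈ {r : ℕ × ℕ | r.1 < r.2 ∧ r.1 ∈ (stt f X k (max p.2 q.2 + 1) : Set ℕ) ∧
      r.2 ∈ (stt f X k (max p.2 q.2 + 1) : Set ℕ)} :=
    ⟨hq.1, mem_stt_of hq.2.1 (by have := hq.1; omega), mem_stt_of hq.2.2 (by omega)⟩
  exact stt_rainbow _ h1 h2 h

theorem Gs_spec {w : ℕ} (h : w ∈ Gs f X k) : (stt f X k w).card + k ≤ X w ∧
    stt f X k (w + 1) = insert w (stt f X k w) := by
  have h' : w ∈ stt f X k (w + 1) := h
  rw [stt] at h' ⊢
  split_ifs at h' ⊢ with hc
  · exact ⟨hc.2, rfl⟩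
  · exact absurd (stt_lt h') (lt_irrefl _)

theorem pair_bound {a b y : ℕ} (ha : a ≤ y) (hb : b ≤ y) : Nat.pair a b < (y + 1) ^ 2 := by
  refine (Nat.pair_lt_max_add_one_sq a b).trans_le ?_
  exact Nat.pow_le_pow_left (by omega) 2

theorem stt_succ (y : ℕ) : stt f X k (y + 1) =
    open Classical in if Rainbow f ((insert y (stt f X k y) : Finset ℕ) : Set ℕ) ∧
      (stt f X k y).card + k ≤ X y then insert y (stt f X k y) else stt f X k y := rfl

theorem stt_congr {f f' X X' : ℕ → ℕ} {k : ℕ} (y : ℕ) (hf : ∀ j < (y + 1) ^ 2, f j = f' j)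
    (hX : ∀ j < y, X j = X' j) : stt f X k y = stt f' X' k y := by
  induction y with
  | zero => rfl
  | succ y ih =>
    have ih' := ih (fun j hj => hf j (hj.trans_le (Nat.pow_le_pow_left (by omega) 2)))
      (fun j hj => hX j (by omega))
    rw [stt_succ, stt_succ, ← ih', ← hX y (by omega)]
    have : Rainbow f ((insert y (stt f X k y) : Finset ℕ) : Set ℕ) ↔
        Rainbow f' ((insert y (stt f X k y) : Finset ℕ) : Set ℕ) := by
      refine Set.EqOn.injOn_iff fun p hp => ?_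
      have hle : ∀ z ∈ ((insert y (stt f X k y) : Finset ℕ) : Set ℕ), z ≤ y := by
        intro z hz
        rcases Finset.mem_insert.1 (Finset.mem_coe.1 hz) with rfl | hz
        · exact le_refl _
        · exact (stt_lt hz).le
      refine hf _ ((pair_bound (hle _ hp.2.1) (hle _ hp.2.2)).trans_le ?_)
      exact Nat.pow_le_pow_left (by omega) 2
    by_cases hc : Rainbow f ((insert y (stt f X k y) : Finset ℕ) : Set ℕ) ∧
      (stt f X k y).card + k ≤ X y
    · rw [if_pos hc, if_pos ⟨this.1 hc.1, hc.2⟩]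
    · rw [if_neg hc, if_neg fun hc' => hc ⟨this.2 hc'.1, hc'.2⟩]

/-- `x` and `x'` are partners: they get the same colours with almost all points. -/
def Pt (f : ℕ → ℕ) (x x' : ℕ) : Prop :=
  x ≠ x' ∧ ∀ᶠ y in (hyperfilter ℕ : Filter ℕ), f (Nat.pair x y) = f (Nat.pair x' y)

theorem Pt.symm {x x' : ℕ} (h : Pt f x x') : Pt f x' x := ⟨h.1.symm, h.2.mono fun _ e => e.symm⟩

theorem ev_gt (a : ℕ) : ∀ᶠ y in (hyperfilter ℕ : Filter ℕ), a < y := by
  apply hyperfilter_le_cofinite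
  rw [Nat.cofinite_eq_atTop]
  exact eventually_gt_atTop a

theorem pt_unique (hf : TwoBounded f) {x x' x'' : ℕ} (h : Pt f x x') (h' : Pt f x x'') :
    x' = x'' := by
  by_contra hne
  obtain ⟨y, ⟨⟨⟨h1, h2⟩, h3⟩, h4⟩, h5⟩ :=
    ((((h.2.and h'.2).and (ev_gt x)).and (ev_gt x')).and (ev_gt x'')).exists
  have hsub : (({(x, y), (x', y), (x'', y)} : Finset (ℕ × ℕ)) : Set (ℕ × ℕ)) ⊆
      {p : ℕ × ℕ | p.1 < p.2 ∧ f (Nat.pair p.1 p.2) = f (Nat.pair x y)} := by
    intro p hp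
    simp only [Finset.coe_insert, Finset.coe_singleton, mem_insert_iff, mem_singleton_iff] at hp
    rcases hp with rfl | rfl | rfl
    · exact ⟨h3, rfl⟩
    · exact ⟨h4, h1.symm⟩
    · exact ⟨h5, h2.symm⟩
  have hc := (encard_le_encard hsub).trans (hf _)
  rw [encard_coe_eq_coe_finsetCard, Finset.card_insert_of_notMem, Finset.card_insert_of_notMem,
    Finset.card_singleton] at hc
  · norm_num at hc
  · simp [hne]
  · simp [h.1, h'.1]

theorem cand (hf : TwoBounded f) {F : Finset ℕ} (hF : Rainbow f (F : Set ℕ))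
    (hP : ∀ z ∈ F, ∀ w ∈ F, ¬ Pt f z w) :
    {y | (∀ x ∈ F, x < y) ∧ Rainbow f ((insert y F : Finset ℕ) : Set ℕ)}.Infinite := by
  have h1 : ∀ᶠ y in (hyperfilter ℕ : Filter ℕ), ∀ x ∈ F, x < y := by
    rw [eventually_all_finset]
    exact fun x _ => ev_gt x
  have h2 : ∀ᶠ y in (hyperfilter ℕ : Filter ℕ), ∀ x ∈ F, ∀ x' ∈ F,
      x ≠ x' → f (Nat.pair x y) ≠ f (Nat.pair x' y) := by
    rw [eventually_all_finset]
    intro x hx
    rw [eventually_all_finset]
    intro x' hx'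
    by_cases hxx : x = x'
    · exact Eventually.of_forall fun y h => absurd hxx h
    · have := hP x hx x' hx'
      unfold Pt at this
      push Not at this
      exact (this hxx).mono fun y h _ => h
  have h3 : ∀ᶠ y in (hyperfilter ℕ : Filter ℕ), ∀ x ∈ F, ∀ a ∈ F, ∀ b ∈ F,
      x < y → f (Nat.pair x y) ≠ f (Nat.pair a b) := by
    rw [eventually_all_finset]; intro x hx
    rw [eventually_all_finset]; intro a ha
    rw [eventually_all_finset]; intro b hb
    have hfin : {p : ℕ × ℕ | p.1 < p.2 ∧ f (Nat.pair p.1 p.2) = f (Nat.pair a b)}.Finite :=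
      finite_of_encard_le_coe (hf _)
    have hfin2 : {y | ¬ (x < y → f (Nat.pair x y) ≠ f (Nat.pair a b))}.Finite := by
      refine (hfin.image Prod.snd).subset fun y hy => ?_
      simp only [mem_ofPred_eq, Classical.not_imp, not_not] at hy
      exact ⟨(x, y), hy, rfl⟩
    exact hyperfilter_le_cofinite (show _ ∈ cofinite from hfin2)
  intro hfinite
  have h4 := (h1.and (h2.and h3))
  have h5 : {y | (∀ x ∈ F, x < y) ∧ Rainbow f ((insert y F : Finset ℕ) : Set ℕ)} ∈
      (hyperfilter ℕ : Filter ℕ) := by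
    refine h4.mono ?_
    rintro y ⟨g1, g2, g3⟩
    refine ⟨g1, ?_⟩
    rintro ⟨p1, p2⟩ hp ⟨q1, q2⟩ hq he
    simp only [Finset.coe_insert, mem_insert_iff, Finset.mem_coe, mem_ofPred_eq] at hp hq he
    obtain ⟨hp0, hp1, hp2⟩ := hp
    obtain ⟨hq0, hq1, hq2⟩ := hq
    have p1F : p1 ∈ F := by
      rcases hp1 with rfl | h
      · rcases hp2 with rfl | h
        · exact absurd hp0 (lt_irrefl _)
        · exact absurd (g1 _ h) (by omega)
      · exact h
    have q1F : q1 ∈ F := by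
      rcases hq1 with rfl | h
      · rcases hq2 with rfl | h
        · exact absurd hq0 (lt_irrefl _)
        · exact absurd (g1 _ h) (by omega)
      · exact h
    rcases hp2 with rfl | hp2
    · rcases hq2 with rfl | hq2
      · by_contra hne
        have : p1 ≠ q1 := fun h => hne (by rw [h])
        exact g2 p1 p1F q1 q1F this he
      · exact absurd he (g3 p1 p1F q1 q1F q2 hq2 hp0)
    · rcases hq2 with rfl | hq2
      · exact absurd he.symm (g3 q1 q1F p1 p1F p2 hp2 hq0)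
      · exact hF (show (p1, p2) ∈ _ from ⟨hp0, p1F, hp2⟩)
          (show (q1, q2) ∈ _ from ⟨hq0, q1F, hq2⟩) he
  exact notMem_hyperfilter_of_finite hfinite h5

/-- The levels are large at some points of every infinite set. -/
theorem large_ae {C : Set ℕ} (hC : C.Infinite) (L y0 : ℕ) :
    ∀ᵐ X ∂mu, ∃ y, y0 ≤ y ∧ y ∈ C ∧ L ≤ X y := by
  have hC2 : (C \ Iio y0).Infinite := hC.sdiff (finite_Iio y0)
  have hlt : lam (Iio L) < 1 := by
    have h1 : (Iio L : Set ℕ) = (Ici L)ᶜ := by ext; simp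
    rw [h1, measure_compl measurableSet_Ici (measure_ne_top _ _), lam_univ]
    exact ENNReal.sub_lt_self ENNReal.one_ne_top one_ne_zero (lam_Ici_ne_zero L)
  have hle : ∀ N : ℕ, mu {X | ¬ ∃ y, y0 ≤ y ∧ y ∈ C ∧ L ≤ X y} ≤ lam (Iio L) ^ N := by
    intro N
    obtain ⟨s, hs, hcard⟩ := hC2.exists_subset_card_eq N
    calc mu {X | ¬ ∃ y, y0 ≤ y ∧ y ∈ C ∧ L ≤ X y} ≤
        mu (Set.pi (s : Set ℕ) fun _ => Iio L) := by
          refine measure_mono fun X hX y hy => ?_
          have h1 := hs hy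
          by_contra hcon
          exact hX ⟨y, by simpa using h1.2, h1.1, by simpa using hcon⟩
      _ = ∏ i ∈ s, lam (Iio L) := by
          unfold mu
          exact Measure.infinitePi_pi _ fun _ _ => measurableSet_Iio
      _ = lam (Iio L) ^ N := by rw [Finset.prod_const, hcard]
  rw [ae_iff]
  have := ENNReal.tendsto_pow_atTop_nhds_zero_of_lt_one hlt
  exact le_antisymm (ge_of_tendsto' this hle) zero_le

/-- The property of the levels that is used. -/
def Star (f X : ℕ → ℕ) : Prop := ∀ (F : Finset ℕ) (L y0 : ℕ),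
  {y | (∀ x ∈ F, x < y) ∧ Rainbow f ((insert y F : Finset ℕ) : Set ℕ)}.Infinite →
  ∃ y, y0 ≤ y ∧ ((∀ x ∈ F, x < y) ∧ Rainbow f ((insert y F : Finset ℕ) : Set ℕ)) ∧ L ≤ X y

theorem star_ae (f : ℕ → ℕ) : ∀ᵐ X ∂mu, Star f X := by
  unfold Star
  rw [ae_all_iff]; intro F
  rw [ae_all_iff]; intro L
  rw [ae_all_iff]; intro y0
  by_cases h : {y | (∀ x ∈ F, x < y) ∧ Rainbow f ((insert y F : Finset ℕ) : Set ℕ)}.Infinite
  · exact (large_ae h L y0).mono fun X hX _ => hX
  · exact Eventually.of_forall fun X h' => absurd h' h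

theorem Gs_infinite (hf : TwoBounded f) (hX : Star f X)
    (hP : ∀ y, ∀ z ∈ stt f X k y, ∀ w ∈ stt f X k y, ¬ Pt f z w) : (Gs f X k).Infinite := by
  intro hfin
  obtain ⟨b, hb⟩ := hfin.bddAbove
  have hst : ∀ y, b + 1 ≤ y → stt f X k y = stt f X k (b + 1) := by
    intro y hy
    refine Finset.Subset.antisymm (fun x hx => ?_) (stt_mono hy)
    have h1 := mem_Gs_of hx
    exact mem_stt_of h1 (Nat.lt_succ_of_le (hb h1))
  obtain ⟨y, hy1, hy2, hy3⟩ := hX (stt f X k (b + 1)) ((stt f X k (b + 1)).card + k) (b + 1)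
    (cand hf (stt_rainbow _) (hP _))
  have h1 : y ∈ Gs f X k := by
    change y ∈ stt f X k (y + 1)
    rw [stt, hst y hy1, if_pos ⟨hy2.2, hy3⟩]
    exact Finset.mem_insert_self _ _
  exact absurd (hb h1) (by omega)

/-- `z` is the `i`-th element of the produced set. -/
def Dz (f : ℕ → ℕ) (k z i : ℕ) : Set (ℕ → ℕ) :=
  {X | z ∈ stt f X k (z + 1) ∧ (stt f X k z).card = i}

theorem Dz_det (f : ℕ → ℕ) (k z i : ℕ) : Det (z + 1) (Dz f k z i) := by
  intro X X' h hX
  have e1 : stt f X k (z + 1) = stt f X' k (z + 1) := stt_congr _ (fun _ _ => rfl) h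
  have e2 : stt f X k z = stt f X' k z :=
    stt_congr _ (fun _ _ => rfl) fun j hj => h j (by omega)
  simp only [Dz, mem_ofPred_eq] at hX ⊢
  rw [← e1, ← e2]; exact hX

theorem Dz_sum (f : ℕ → ℕ) (k i : ℕ) : ∑' z, mu (Dz f k z i) ≤ 1 := by
  rw [← measure_iUnion]
  · exact prob_le_one
  · have key : ∀ z z' : ℕ, z < z' → ∀ X, X ∈ Dz f k z i → X ∉ Dz f k z' i := by
      intro z z' hlt X h1 h2
      have h3 := (Gs_spec (w := z) h1.1).2
      have h4 : (stt f X k (z + 1)).card = i + 1 := by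
        rw [h3, Finset.card_insert_of_notMem, h1.2]
        exact fun h => lt_irrefl _ (stt_lt h)
      have h5 := Finset.card_le_card (stt_mono (f := f) (X := X) (k := k)
        (Nat.succ_le_of_lt hlt))
      simp only [Nat.succ_eq_add_one] at h5
      rw [h4, h2.2] at h5
      omega
    intro z z' hne
    rw [Function.onFun, Set.disjoint_left]
    intro X h1 h2
    rcases lt_or_gt_of_ne hne with h | h
    · exact key z z' h X h1 h2
    · exact key z' z h X h2 h1
  · intro z; exact (Dz_det f k z i).measurableSet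

theorem bad_le (hf : TwoBounded f) (k : ℕ) :
    mu {X | ∃ y, ∃ z ∈ stt f X k y, ∃ w ∈ stt f X k y, Pt f z w} ≤ (2 : ℝ≥0∞)⁻¹ ^ k := by
  have hsub : {X | ∃ y, ∃ z ∈ stt f X k y, ∃ w ∈ stt f X k y, Pt f z w} ⊆
      ⋃ i, ⋃ z, ⋃ w ∈ {w | z < w ∧ Pt f z w}, (Dz f k z i ∩ {X | X w ∈ Ici (i + 1 + k)}) := by
    rintro X ⟨y, z, hz, w, hw, hP⟩
    have key : ∀ z w, z ∈ stt f X k y → w ∈ stt f X k y → Pt f z w → z < w →
        X ∈ ⋃ i, ⋃ z, ⋃ w ∈ {w | z < w ∧ Pt f z w},
          (Dz f k z i ∩ {X | X w ∈ Ici (i + 1 + k)}) := by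
      intro z w hz hw hP hlt
      simp only [mem_iUnion]
      refine ⟨(stt f X k z).card, z, w, ⟨hlt, hP⟩, ⟨mem_Gs_of hz, rfl⟩, ?_⟩
      have hzG := mem_Gs_of hz
      have hwG := mem_Gs_of hw
      have h3 := (Gs_spec hzG).2
      have h4 : (stt f X k (z + 1)).card = (stt f X k z).card + 1 := by
        rw [h3, Finset.card_insert_of_notMem]
        exact fun h => lt_irrefl _ (stt_lt h)
      have h5 := Finset.card_le_card (stt_mono (f := f) (X := X) (k := k)
        (Nat.succ_le_of_lt hlt))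
      simp only [Nat.succ_eq_add_one] at h5
      have h6 := (Gs_spec hwG).1
      simp only [mem_Ici, mem_ofPred_eq]
      omega
    rcases lt_or_gt_of_ne hP.1 with h | h
    · exact key z w hz hw hP h
    · exact key w z hw hz hP.symm h
  refine (measure_mono hsub).trans ?_
  have h1 : ∀ i z, mu (⋃ w ∈ {w | z < w ∧ Pt f z w},
      (Dz f k z i ∩ {X | X w ∈ Ici (i + 1 + k)})) ≤ mu (Dz f k z i) * (2 : ℝ≥0∞)⁻¹ ^ (i + 1 + k) := by
    intro i z
    by_cases hW : ∃ w, z < w ∧ Pt f z w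
    · obtain ⟨w, hw⟩ := hW
      have e : {w | z < w ∧ Pt f z w} = {w} := by
        ext w'
        simp only [mem_ofPred_eq, mem_singleton_iff]
        constructor
        · intro h; exact pt_unique hf h.2 hw.2
        · rintro rfl; exact hw
      rw [e, biUnion_singleton, indep (Dz_det f k z i) hw.1, lam_Ici]
    · have e : {w | z < w ∧ Pt f z w} = ∅ := by
        ext w'
        simp only [mem_ofPred_eq, mem_empty_iff_false, iff_false]
        exact fun h => hW ⟨w', h⟩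
      rw [e, biUnion_empty, measure_empty]
      exact zero_le
  calc mu (⋃ i, ⋃ z, ⋃ w ∈ {w | z < w ∧ Pt f z w}, (Dz f k z i ∩ {X | X w ∈ Ici (i + 1 + k)}))
      ≤ ∑' i, mu (⋃ z, ⋃ w ∈ {w | z < w ∧ Pt f z w},
        (Dz f k z i ∩ {X | X w ∈ Ici (i + 1 + k)})) := measure_iUnion_le _
    _ ≤ ∑' i, ∑' z, mu (⋃ w ∈ {w | z < w ∧ Pt f z w},
        (Dz f k z i ∩ {X | X w ∈ Ici (i + 1 + k)})) :=
        ENNReal.tsum_le_tsum fun i => measure_iUnion_le _
    _ ≤ ∑' i, ∑' z, mu (Dz f k z i) * (2 : ℝ≥0∞)⁻¹ ^ (i + 1 + k) :=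
        ENNReal.tsum_le_tsum fun i => ENNReal.tsum_le_tsum fun z => h1 i z
    _ = ∑' i, (∑' z, mu (Dz f k z i)) * (2 : ℝ≥0∞)⁻¹ ^ (i + 1 + k) := by
        refine tsum_congr fun i => ?_
        rw [ENNReal.tsum_mul_right]
    _ ≤ ∑' i : ℕ, (2 : ℝ≥0∞)⁻¹ ^ (i + 1 + k) := by
        refine ENNReal.tsum_le_tsum fun i => ?_
        calc _ ≤ 1 * (2 : ℝ≥0∞)⁻¹ ^ (i + 1 + k) := mul_le_mul_left (Dz_sum f k i) _
          _ = _ := one_mul _
    _ = (∑' i : ℕ, (2 : ℝ≥0∞)⁻¹ ^ (i + 1)) * (2 : ℝ≥0∞)⁻¹ ^ k := by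
        rw [← ENNReal.tsum_mul_right]
        refine tsum_congr fun i => ?_
        rw [pow_add]
    _ = (2 : ℝ≥0∞)⁻¹ ^ k := by
        rw [ENNReal.tsum_geometric_add_one, ENNReal.one_sub_inv_two, inv_inv,
          ENNReal.inv_mul_cancel (by simp) (by simp), one_mul]

theorem rrt_ae (hf : TwoBounded f) : ∀ᵐ X ∂mu, ∃ k, (Gs f X k).Infinite := by
  rw [ae_iff]
  have h1 : ∀ k : ℕ, mu {X | ¬ ∃ k, (Gs f X k).Infinite} ≤ (2 : ℝ≥0∞)⁻¹ ^ k := by
    intro k
    have hsub : {X | ¬ ∃ k, (Gs f X k).Infinite} ⊆ {X | ¬ Star f X} ∪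
        {X | ∃ y, ∃ z ∈ stt f X k y, ∃ w ∈ stt f X k y, Pt f z w} := by
      intro X hX
      by_cases hs : Star f X
      · right
        by_contra hcon
        refine hX ⟨k, Gs_infinite hf hs fun y z hz w hw hP => hcon ⟨y, z, hz, w, hw, hP⟩⟩
      · left; exact hs
    calc _ ≤ mu _ := measure_mono hsub
      _ ≤ mu {X | ¬ Star f X} + mu _ := measure_union_le _ _
      _ = mu {X | ∃ y, ∃ z ∈ stt f X k y, ∃ w ∈ stt f X k y, Pt f z w} := by
          rw [ae_iff.1 (star_ae f), zero_add]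
      _ ≤ _ := bad_le hf k
  have h2 : (2 : ℝ≥0∞)⁻¹ < 1 := by norm_num
  have := ENNReal.tendsto_pow_atTop_nhds_zero_of_lt_one h2
  exact le_antisymm (ge_of_tendsto' this h1) zero_le

/-- The process as a functional on functions: at `⟨k, y⟩` it decides whether `y` is in the set. -/
noncomputable def Gf (f X : ℕ → ℕ) (p : ℕ) : ℕ :=
  open Classical in if p.unpair.2 ∈ stt f X p.unpair.1 (p.unpair.2 + 1) then 1 else 0

theorem Gf_modulus (f f' X X' : ℕ → ℕ) (n : ℕ)
    (hf : ∀ j < (n.unpair.2 + 2) ^ 2, f j = f' j)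
    (hX : ∀ j < (n.unpair.2 + 2) ^ 2, X j = X' j) : Gf f X n = Gf f' X' n := by
  unfold Gf
  rw [stt_congr (n.unpair.2 + 1) hf (fun j hj => hX j (by nlinarith))]

theorem Gf_char (f X : ℕ → ℕ) (k : ℕ) : IsChar (fun y => Gf f X (Nat.pair k y)) (Gs f X k) := by
  intro y
  unfold Gf Gs
  simp only [Nat.unpair_pair, mem_ofPred_eq]
  constructor
  · intro h; rw [if_pos h]
  · intro h; rw [if_neg h]

end X97.RH
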