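import Pool.Agent.X97.RH.Force
import Pool.Agent.X97.RH.Join
import Pool.Agent.X97.RH.RRT

/-! # The `ω`-model -/

namespace X97.RH

open MeasureTheory Set
open scoped ENNReal

theorem RI.subst {O O' : Set (ℕ →. ℕ)} {f : ℕ → ℕ} (h : RI O f)
    (hO : ∀ g ∈ O, Nat.RecursiveIn O' g) : RI O' f := Nat.RecursiveIn.subst h hO

theorem RI.mono {O O' : Set (ℕ →. ℕ)} {f : ℕ → ℕ} (h : RI O f) (hO : O ⊆ O') : RI O' f :=
  h.subst fun g hg => .oracle g (hO hg)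

/-- Almost no `X` computes, together with `O`, a solution of `c`. -/
def PO (c : ℕ → ℕ) (O : Set (ℕ →. ℕ)) : Prop :=
  ∀ᵐ (X : ℕ → ℕ) ∂mu, ∀ h : ℕ → ℕ, RI (insert (X : ℕ →. ℕ) O) h → ¬ SolSet c {n | h n = 1}

theorem PO.step {c : ℕ → ℕ} {O : Set (ℕ →. ℕ)} (h : PO c O) :
    ∀ᵐ (X : ℕ → ℕ) ∂mu, PO c (insert (X : ℕ →. ℕ) O) := by
  have h1 := join_mp.quasiMeasurePreserving.ae h
  have h2 : ∀ᵐ p : (ℕ → ℕ) × (ℕ → ℕ) ∂(mu.prod mu), ∀ h : ℕ → ℕ,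
      RI (insert (p.2 : ℕ →. ℕ) (insert (p.1 : ℕ →. ℕ) O)) h → ¬ SolSet c {n | h n = 1} := by
    filter_upwards [h1] with p hp h hh
    refine hp h (hh.subst ?_)
    have hj : RI (insert ((join p.1 p.2 : ℕ → ℕ) : ℕ →. ℕ) O) (join p.1 p.2) :=
      .oracle _ (mem_insert _ _)
    intro g hg
    rcases hg with rfl | rfl | hg
    · exact hj.odd
    · exact hj.even
    · exact .oracle _ (mem_insert_of_mem _ hg)
  exact Measure.ae_ae_of_ae_prod h2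

/-- The set of oracles given by a sequence. -/
def OO (g : ℕ → ℕ → ℕ) : Set (ℕ →. ℕ) := range fun i => (g i : ℕ →. ℕ)

/-- Add an oracle to a sequence. -/
def cns (X : ℕ → ℕ) (g : ℕ → ℕ → ℕ) : ℕ → ℕ → ℕ
  | 0 => X
  | i + 1 => g i

theorem OO_cns (X : ℕ → ℕ) (g : ℕ → ℕ → ℕ) : OO (cns X g) = insert (X : ℕ →. ℕ) (OO g) := by
  ext z
  simp only [OO, mem_insert_iff, mem_range]
  constructor
  · rintro ⟨_ | i, rfl⟩
    · left; rfl
    · right; exact ⟨i, rfl⟩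
  · rintro (rfl | ⟨i, rfl⟩)
    · exact ⟨0, rfl⟩
    · exact ⟨i + 1, rfl⟩

theorem all_rrt_ae (g : ℕ → ℕ → ℕ) : ∀ᵐ (X : ℕ → ℕ) ∂mu, ∀ f : ℕ → ℕ, RI (OO g) f →
    TwoBounded f → ∃ k, (Gs f X k).Infinite := by
  have h : ∀ᵐ (X : ℕ → ℕ) ∂mu, ∀ a : Cd, ∀ f : ℕ → ℕ, (∀ n, ev g a n = Part.some (f n)) →
      TwoBounded f → ∃ k, (Gs f X k).Infinite := by
    rw [ae_all_iff]
    intro a
    by_cases hex : ∃ f : ℕ → ℕ, (∀ n, ev g a n = Part.some (f n)) ∧ TwoBounded f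
    · obtain ⟨f, hf, hb⟩ := hex
      filter_upwards [rrt_ae hb] with X hX f' hf' hb'
      have : f' = f := by
        funext n
        have := (hf' n).symm.trans (hf n)
        exact Part.some_inj.1 this
      rw [this]; exact hX
    · exact Filter.Eventually.of_forall fun X f hf hb => absurd ⟨f, hf, hb⟩ hex
  filter_upwards [h] with X hX f hf hb
  obtain ⟨a, ha⟩ := exists_code hf
  exact hX a f ha hb

theorem one_step {c r md : ℕ → ℕ}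
    (hr : ∀ (O : Set (ℕ →. ℕ)) (f X : ℕ → ℕ), RI O r → RI O md → RI O f → RI O X → RI O (Gf f X))
    (g : ℕ → ℕ → ℕ) (hg1 : RI (OO g) r) (hg2 : RI (OO g) md) (hP : PO c (OO g)) :
    ∃ X : ℕ → ℕ, PO c (OO (cns X g)) ∧ ∀ f : ℕ → ℕ, RI (OO g) f → TwoBounded f →
      ∃ H : Set ℕ, H.Infinite ∧ Rainbow f H ∧ ∃ h : ℕ → ℕ, RI (OO (cns X g)) h ∧ IsChar h H := by
  obtain ⟨X, hX1, hX2⟩ := (hP.step.and (all_rrt_ae g)).exists
  refine ⟨X, by rw [OO_cns]; exact hX1, fun f hf hb => ?_⟩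
  obtain ⟨k, hk⟩ := hX2 f hf hb
  refine ⟨Gs f X k, hk, Gs_rainbow, fun y => Gf f X (Nat.pair k y), ?_, Gf_char f X k⟩
  have hsub : OO g ⊆ OO (cns X g) := by rw [OO_cns]; exact subset_insert _ _
  have h1 := hr (OO (cns X g)) f X (hg1.mono hsub) (hg2.mono hsub) (hf.mono hsub)
    (.oracle _ (by rw [OO_cns]; exact mem_insert _ _))
  have hid : RI (OO (cns X g)) (fun n => n) := RI.prim1 Primrec.id
  have hk : RI (OO (cns X g)) (fun _ => k) := RI.prim1 (Primrec.const k)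
  exact h1.comp (hk.pair hid)

theorem main : ∃ M : Set (ℕ → ℕ), IsTuringIdeal M ∧ RRT22 M ∧ ¬ HT22 M := by
  set md : ℕ → ℕ := fun n => (n.unpair.2 + 2) ^ 2 with hmd
  obtain ⟨r, hr⟩ := associate Gf md fun f f' X X' n h1 h2 => Gf_modulus f f' X X' n h1 h2
  obtain ⟨c, hc2, hc⟩ := exists_coloring (fun i => if i = 0 then r else md)
  let St := {g : ℕ → ℕ → ℕ // RI (OO g) r ∧ RI (OO g) md ∧ PO c (OO g)}
  have hstep : ∀ s : St, ∃ X : ℕ → ℕ, PO c (OO (cns X s.1)) ∧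
      ∀ f : ℕ → ℕ, RI (OO s.1) f → TwoBounded f →
      ∃ H : Set ℕ, H.Infinite ∧ Rainbow f H ∧ ∃ h : ℕ → ℕ, RI (OO (cns X s.1)) h ∧ IsChar h H :=
    fun s => one_step hr s.1 s.2.1 s.2.2.1 s.2.2.2
  choose Xf hX1 hX2 using hstep
  have hsubX : ∀ (s : St), OO s.1 ⊆ OO (cns (Xf s) s.1) := fun s => by
    rw [OO_cns]; exact subset_insert _ _
  let nx : St → St := fun s => ⟨cns (Xf s) s.1, s.2.1.mono (hsubX s), s.2.2.1.mono (hsubX s), hX1 s⟩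
  set g0 : ℕ → ℕ → ℕ := cns c (fun i => if i = 0 then r else md) with hg0
  have e0 : OO g0 = insert (c : ℕ →. ℕ)
      (range fun i => (((fun i => if i = 0 then r else md : ℕ → ℕ → ℕ) i : ℕ → ℕ) : ℕ →. ℕ)) := by
    rw [hg0, OO_cns]; rfl
  have m0 : RI (OO g0) r := .oracle _ ⟨1, rfl⟩
  have m1 : RI (OO g0) md := .oracle _ ⟨2, rfl⟩
  have p0 : PO c (OO g0) := by rw [e0]; exact hc
  let s0 : St := ⟨g0, m0, m1, p0⟩
  let s : ℕ → St := fun n => nx^[n] s0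
  have hs : ∀ n, s (n + 1) = nx (s n) := fun n => Function.iterate_succ_apply' nx n s0
  have hmono : Monotone fun n => OO (s n).1 := by
    refine monotone_nat_of_le_succ fun n => ?_
    simp only [hs]
    exact hsubX (s n)
  refine ⟨{h | ∃ n, RI (OO (s n).1) h}, ⟨⟨c, 0, .oracle _ ⟨0, rfl⟩⟩, ?_, ?_⟩, ?_, ?_⟩
  · rintro f ⟨n, hf⟩ g ⟨m, hg⟩
    exact ⟨max n m, (hf.mono (hmono (le_max_left n m))).join (hg.mono (hmono (le_max_right n m)))⟩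
  · rintro f ⟨n, hf⟩ g hg
    refine ⟨n, ?_⟩
    have h1 : Nat.RecursiveIn {(f : ℕ →. ℕ)} (g : ℕ →. ℕ) := RecursiveIn.iff_nat.1 hg
    refine Nat.RecursiveIn.subst h1 fun k hk => ?_
    rw [mem_singleton_iff] at hk
    rw [hk]; exact hf
  · rintro f ⟨n, hf⟩ hb
    obtain ⟨H, h1, h2, h, h3, h4⟩ := hX2 (s n) f hf hb
    exact ⟨H, h1, h2, h, ⟨n + 1, by rw [hs]; exact h3⟩, h4⟩
  · intro hHT
    obtain ⟨H, h1, h2, h, ⟨n, hh⟩, h4⟩ := hHT c ⟨0, .oracle _ ⟨0, rfl⟩⟩ hc2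
    obtain ⟨X, hX⟩ := (s n).2.2.2.exists
    refine hX h (hh.mono (subset_insert _ _)) ?_
    have e : {n | h n = 1} = H := by
      ext n
      simp only [mem_ofPred_eq]
      constructor
      · intro hn
        by_contra hn'
        rw [(h4 n).2 hn'] at hn
        omega
      · intro hn; exact (h4 n).1 hn
    rw [e]
    exact ⟨h1, h2⟩

end X97.RH
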